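import Pool.Agent.H200G.Fin

/-! # Project GR: unions of families. -/

set_option autoImplicit false

namespace Pool.Agent.H200G

open Finset Pool.Agent.TH176.Nag Pool.Agent.TH603.Sur Pool.Agent.TH2.NU Pool.Agent.TH641.UM
open Pool.Agent.Y205.FW Pool.Agent.Y205.MD Pool.Agent.H200W Pool.Agent.H200P Pool.Agent.H200C
open Pool.Agent.H932R3 Pool.Agent.W609.CR

/-- The points are divided into groups (the values of `c`), and in every group the sum of the squares of
the multiplicities is at least `2 ^ 29` times the number of the different nonzero values times the square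
of the largest one. There is no condition on the number and the sizes of the groups. -/
def Families {n : ℕ} (w : Fin n → ℕ) : Prop :=
  ∃ c : Fin n → ℕ, ∀ i, 2 ^ 29 * w i ^ 2 * ((univ.filter fun j => c j = c i ∧ w j ≠ 0).image w).card ≤
    ∑ j ∈ univ.filter (fun j => c j = c i), w j ^ 2

/-- `w` is a union of families; or it lies above a union `v ≤ w` of families which has at least as many
conditions as there are coefficients in degree `d`; or below a union `v` of families (with possibly more
points) which has at most as many conditions as there are coefficients in degree `d`. -/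
def Fam {n : ℕ} (d : ℕ) (w : Fin n → ℕ) : Prop :=
  Families w ∨
    (∃ v : Fin n → ℕ, (∀ i, v i ≤ w i) ∧ Families v ∧
      (d + 2).choose 2 ≤ ∑ i, (v i + 1).choose 2) ∨
    ∃ (r : ℕ) (v : Fin r → ℕ) (f : Fin n ↪ Fin r), (∀ i, w i ≤ v (f i)) ∧ Families v ∧
      ∑ i, (v i + 1).choose 2 ≤ (d + 2).choose 2

theorem Families.un {n : ℕ} {w : Fin n → ℕ} (h : Families w) : Un w univ := by
  obtain ⟨c, hc⟩ := h
  exact ⟨c, fun i _ => hc i⟩

theorem families_iff {n : ℕ} {w : Fin n → ℕ} : Families w ↔ Un w univ :=
  ⟨Families.un, fun ⟨c, hc⟩ => ⟨c, fun i => hc i (mem_univ i)⟩⟩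

theorem Fam.graded {n d : ℕ} {w : Fin n → ℕ} (h : Fam d w) : Graded d w := by
  rcases h with h | ⟨v, h1, h2, h3⟩ | ⟨r, v, f, h1, h2, h3⟩
  · exact Or.inl (Or.inl h.un)
  · exact Or.inr (Or.inl ⟨d, v, le_rfl, h1, Or.inl h2.un, h3⟩)
  · exact Or.inr (Or.inr ⟨r, d, v, f, le_rfl, h1, Or.inl h2.un, h3⟩)

/-- every nonzero multiplicity occurs at least `2 ^ 29` times -/
theorem families_of {n : ℕ} {w : Fin n → ℕ}
    (h : ∀ i, w i ≠ 0 → 2 ^ 29 ≤ (univ.filter fun j => w j = w i).card) : Families w := by
  refine ⟨w, fun i => ?_⟩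
  by_cases hi : w i = 0
  · rw [hi]
    simp
  · have h1 : ((univ.filter fun j => w j = w i ∧ w j ≠ 0).image w).card ≤ 1 := by
      rw [card_le_one]
      intro a ha b hb
      rw [mem_image] at ha hb
      obtain ⟨x, hx, rfl⟩ := ha
      obtain ⟨y, hy, rfl⟩ := hb
      rw [mem_filter] at hx hy
      rw [hx.2.1, hy.2.1]
    have h2 : ∑ j ∈ univ.filter (fun j => w j = w i), w j ^ 2 =
        (univ.filter fun j => w j = w i).card * w i ^ 2 := by
      rw [sum_congr (g := fun _ => w i ^ 2) rfl (fun j hj => by rw [(mem_filter.1 hj).2]),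
        sum_const, smul_eq_mul]
    rw [h2]
    calc 2 ^ 29 * w i ^ 2 * ((univ.filter fun j => w j = w i ∧ w j ≠ 0).image w).card
        ≤ 2 ^ 29 * w i ^ 2 * 1 := Nat.mul_le_mul_left _ h1
      _ = 2 ^ 29 * w i ^ 2 := by ring
      _ ≤ _ := Nat.mul_le_mul_right _ (h i hi)

/-- Repeated multiplicities: too many conditions at the points with repeated multiplicities, or enough
room for the rare ones. -/
theorem rep_fam {n d : ℕ} {w : Fin n → ℕ}
    (h : (d + 2).choose 2 ≤ ∑ i ∈ repeated w, (w i + 1).choose 2 ∨
      ∑ i, (w i + 1).choose 2 + 2 ^ 29 * ∑ a ∈ rare w, (a + 1).choose 2 ≤ (d + 2).choose 2) :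
    Fam d w := by
  classical
  rcases h with h | h
  · right
    left
    refine ⟨fun i => if i ∈ repeated w then w i else 0, fun i => ?_, families_of ?_, ?_⟩
    · dsimp only
      split_ifs
      · exact le_rfl
      · exact Nat.zero_le _
    · intro i hi
      have h1 : i ∈ repeated w := by
        by_contra hcon
        exact hi (if_neg hcon)
      have h2 := (mem_filter.1 h1).2
      refine h2.trans (card_le_card fun j hj => ?_)
      rw [mem_filter] at hj ⊢
      refine ⟨mem_univ _, ?_⟩
      have h3 : j ∈ repeated w := by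
        rw [repeated, mem_filter]
        refine ⟨mem_univ _, ?_⟩
        rw [hj.2]
        exact h2
      rw [if_pos h1, if_pos h3, hj.2]
    · refine h.trans (le_of_eq ?_)
      rw [← sum_filter_add_sum_filter_not univ (fun i => i ∈ repeated w)
        (fun i => ((if i ∈ repeated w then w i else 0) + 1).choose 2)]
      have e1 : ∑ i ∈ univ.filter (fun i => i ∉ repeated w),
          ((if i ∈ repeated w then w i else 0) + 1).choose 2 = 0 := by
        refine sum_eq_zero fun i hi => ?_
        rw [if_neg (mem_filter.1 hi).2]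
        rfl
      rw [e1, add_zero]
      refine sum_congr (by ext i; simp) fun i hi => ?_
      have hi2 : i ∈ repeated w := by
        first
          | exact hi
          | exact (mem_filter.1 hi).2
      rw [if_pos hi2]
  · right
    right
    obtain ⟨m, hm⟩ : ∃ m, m = (rare w).card := ⟨_, rfl⟩
    let g : Fin m ≃ ↥(rare w) := (finCongr hm).trans (rare w).equivFin.symm
    let t : Fin n ⊕ (Fin m × Fin (2 ^ 29)) → ℕ := Sum.elim w fun x => ((g x.1 : ↥(rare w)) : ℕ)
    let φ : Fin (n + m * 2 ^ 29) ≃ Fin n ⊕ (Fin m × Fin (2 ^ 29)) :=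
      finSumFinEquiv.symm.trans (Equiv.sumCongr (Equiv.refl _) finProdFinEquiv.symm)
    have hsum : ∀ F : ℕ → ℕ, ∑ i, F (t (φ i)) = ∑ i, F (w i) + 2 ^ 29 * ∑ a ∈ rare w, F a := by
      intro F
      rw [φ.sum_comp (fun x => F (t x)), Fintype.sum_sum_type, Fintype.sum_prod_type]
      congr 1
      simp only [t, Sum.elim_inr, sum_const, card_univ, Fintype.card_fin, smul_eq_mul]
      rw [← mul_sum, g.sum_comp (fun a : ↥(rare w) => F a.1), sum_coe_sort (rare w) F]
    refine ⟨n + m * 2 ^ 29, fun i => t (φ i), Function.Embedding.inl.trans φ.symm.toEmbedding,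
      fun i => ?_, families_of ?_, ?_⟩
    · simp [t]
    · intro i _
      have key : ∀ x : Fin n ⊕ (Fin m × Fin (2 ^ 29)), 2 ^ 29 ≤ (univ.filter fun y => t y = t x).card := by
        have hrare : ∀ k : Fin m, 2 ^ 29 ≤ (univ.filter fun y => t y = ((g k : ↥(rare w)) : ℕ)).card := by
          intro k
          have h1 : (univ : Finset (Fin (2 ^ 29))).card ≤
              (univ.filter fun y => t y = ((g k : ↥(rare w)) : ℕ)).card := by
            refine card_le_card_of_injOn (fun l => Sum.inr (k, l)) (fun l _ => ?_) ?_
            · simp [t]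
            · intro l1 _ l2 _ hl
              simpa using hl
          rwa [card_univ, Fintype.card_fin] at h1
        rintro (i | ⟨k, l⟩)
        · by_cases hi : i ∈ repeated w
          · refine (mem_filter.1 hi).2.trans ?_
            refine card_le_card_of_injOn (fun j => Sum.inl j) (fun j hj => ?_) ?_
            · have hj' := (mem_filter.1 (mem_coe.1 hj)).2
              rw [mem_coe, mem_filter]
              exact ⟨mem_univ _, hj'⟩
            · intro l1 _ l2 _ hl
              simpa using hl
          · have h1 : w i ∈ rare w := mem_image.2 ⟨i, by simp [hi], rfl⟩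
            have h2 := hrare (g.symm ⟨w i, h1⟩)
            rw [Equiv.apply_symm_apply] at h2
            exact h2
        · exact hrare k
      refine (key (φ i)).trans ?_
      refine card_le_card_of_injOn (fun y => φ.symm y) (fun y hy => ?_) ?_
      · have hy' := (mem_filter.1 (mem_coe.1 hy)).2
        simp [hy']
      · intro l1 _ l2 _ hl
        simpa using hl
    · exact (hsum fun a => (a + 1).choose 2).trans_le h

end Pool.Agent.H200G
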