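import Pool.Agent.H200G.Asm
import Pool.Agent.H200G.FinU

/-! # Project GR: the results. -/

set_option autoImplicit false

namespace Pool.Agent.H200G

open Finset Pool.Agent.H200W Pool.Agent.H200P Pool.Agent.H200C Pool.Agent.W609.CR Pool.Agent

theorem gAt_all {n d : ℕ} {w : Fin n → ℕ} (h : GAt d w) : GenExp d w :=
  gAt_exp p_expPure p_expAb p_unGr p_win3 p_winC h

theorem graded_all {n d : ℕ} {w : Fin n → ℕ} (h : Graded d w) : GenExp d w :=
  graded_exp p_expPure p_expAb p_unGr p_win3 p_winC p_hered h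

theorem families_all {n : ℕ} {w : Fin n → ℕ} (h : Families w) (d : ℕ) : GenExp d w :=
  gAt_all (Or.inl h.un)

theorem fam_all {n d : ℕ} {w : Fin n → ℕ} (h : Fam d w) : GenExp d w := graded_all h.graded

theorem mainR_all : MainR :=
  Q184.GR.mainR p_repUn p_unGr p_expPure (packG_exp p_winP p_expAb p_unGr)

end Pool.Agent.H200G
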