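import Pool.Agent.H200G.All
import Pool.Agent.H200W.NefFin
import Pool.Agent.Q195.GR.NefU
import Pool.Agent.Q184.GR.NefR

/-! # Project GR: nef classes. -/

set_option autoImplicit false

namespace Pool.Agent.H200G

open Finset Pool.Agent.H200W Pool.Agent.H200P Pool.Agent.W609.CR Pool.Agent

theorem nefU_all : NefU := Q195.GR.nefU p_expPure p_unGr nefExp

theorem nefR_all : NefR := Q184.GR.nefR mainR_all nefExp

/-- The coefficients are nonnegative and divided into groups (the values of `c`), such that in every group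
the sum of the squares is at least `2 ^ 30` times the number of the different nonzero values times the
square of the largest one. There is no condition on the number and the sizes of the groups. -/
def FamiliesR {n : ℕ} (x : Fin n → ℝ) : Prop :=
  (∀ i, 0 ≤ x i) ∧ ∃ c : Fin n → ℕ, ∀ i,
    2 ^ 30 * x i ^ 2 * (((univ.filter fun j => c j = c i ∧ x j ≠ 0).image x).card : ℝ) ≤
      ∑ j ∈ univ.filter (fun j => c j = c i), x j ^ 2

theorem families_nef {n : ℕ} {P : Fin n → Fin 2 → ℂ}
    (hP : AlgebraicIndependent ℚ (fun ij : Fin n × Fin 2 => P ij.1 ij.2)) {a : ℝ} (ha : 0 ≤ a)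
    {x : Fin n → ℝ} (h : FamiliesR x) (hc : ∑ i, x i ^ 2 ≤ a ^ 2) :
    ∀ (G : MvPolynomial (Fin 3) ℂ) (e : ℕ) (u : Fin n → ℕ), G ≠ 0 → G.IsHomogeneous e →
      (∀ i, Van (Pool.Agent.W609.CR.aff (P i)) (u i) G) → ∑ i, x i * (u i : ℝ) ≤ a * e := by
  obtain ⟨h0, c, h1⟩ := h
  exact nefU_all hP a x c ha h0 h1 hc

/-- every nonzero coefficient occurs at least `2 ^ 30` times -/
theorem familiesR_of {n : ℕ} {x : Fin n → ℝ} (h0 : ∀ i, 0 ≤ x i)
    (h : ∀ i, x i ≠ 0 → 2 ^ 30 ≤ (univ.filter fun j => x j = x i).card) : FamiliesR x := by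
  classical
  obtain ⟨φ, hφ⟩ : ∃ φ : ℝ → ℕ, ∀ i j, φ (x i) = φ (x j) ↔ x i = x j := by
    obtain ⟨g, hg⟩ : ∃ g : ↥(univ.image x) → ℕ, Function.Injective g :=
      ⟨fun a => ((univ.image x).equivFin a).1, fun a b hab =>
        (univ.image x).equivFin.injective (Fin.ext hab)⟩
    refine ⟨fun r => if hr : r ∈ univ.image x then g ⟨r, hr⟩ else 0, fun i j => ?_⟩
    have hi : x i ∈ univ.image x := mem_image_of_mem x (mem_univ i)
    have hj : x j ∈ univ.image x := mem_image_of_mem x (mem_univ j)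
    simp only [dif_pos hi, dif_pos hj]
    exact ⟨fun h => congrArg Subtype.val (hg h), fun h => congrArg g (Subtype.ext h)⟩
  refine ⟨h0, fun i => φ (x i), fun i => ?_⟩
  have hfil : (univ.filter fun j => φ (x j) = φ (x i)) = univ.filter fun j => x j = x i :=
    filter_congr fun j _ => hφ j i
  by_cases hi : x i = 0
  · rw [hi]
    simp only [ne_eq, OfNat.ofNat_ne_zero, not_false_eq_true, zero_pow, mul_zero, zero_mul]
    exact sum_nonneg fun j _ => sq_nonneg _
  · have h1 : ((univ.filter fun j => φ (x j) = φ (x i) ∧ x j ≠ 0).image x).card ≤ 1 := by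
      rw [card_le_one]
      intro a ha b hb
      rw [mem_image] at ha hb
      obtain ⟨y, hy, rfl⟩ := ha
      obtain ⟨z, hz, rfl⟩ := hb
      rw [mem_filter] at hy hz
      rw [(hφ _ _).1 hy.2.1, (hφ _ _).1 hz.2.1]
    have h2 : ∑ j ∈ univ.filter (fun j => φ (x j) = φ (x i)), x j ^ 2 =
        (univ.filter fun j => x j = x i).card * x i ^ 2 := by
      rw [hfil, sum_congr (g := fun _ => x i ^ 2) rfl (fun j hj => by rw [(mem_filter.1 hj).2]),
        sum_const, nsmul_eq_mul]
    rw [h2]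
    have h3 : (((univ.filter fun j => φ (x j) = φ (x i) ∧ x j ≠ 0).image x).card : ℝ) ≤ 1 := by
      exact_mod_cast h1
    have h4 : (2 : ℝ) ^ 30 ≤ ((univ.filter fun j => x j = x i).card : ℝ) := by
      exact_mod_cast h i hi
    have h5 : (0 : ℝ) ≤ x i ^ 2 := sq_nonneg _
    calc 2 ^ 30 * x i ^ 2 * (((univ.filter fun j => φ (x j) = φ (x i) ∧ x j ≠ 0).image x).card : ℝ)
        ≤ 2 ^ 30 * x i ^ 2 * 1 := mul_le_mul_of_nonneg_left h3 (by positivity)
      _ = 2 ^ 30 * x i ^ 2 := by ring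
      _ ≤ _ := mul_le_mul_of_nonneg_right h4 h5

end Pool.Agent.H200G
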