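import Pool.Agent.H200G.Stm5
import Pool.Agent.H200C.Stm2
import Pool.Agent.H200P.Fin

/-! # Project GR: from the windows to the classes. -/

set_option autoImplicit false

namespace Pool.Agent.H200G

open Finset Pool.Agent.TH176.Nag Pool.Agent.TH603.Sur Pool.Agent.TH2.NU Pool.Agent.TH641.UM
open Pool.Agent.Y205.FW Pool.Agent.Y205.MD Pool.Agent.H200W Pool.Agent.H200P Pool.Agent.H200C
open Pool.Agent.H932R3 Pool.Agent.W609.CR

theorem lt_pow_size (μ : ℕ) : μ < 2 ^ Nat.size μ := Nat.lt_size_self μ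

theorem pow_size_le (μ : ℕ) : 2 ^ Nat.size μ ≤ 2 * μ + 1 := by
  rcases Nat.eq_zero_or_pos μ with h | h
  · subst h
    simp
  · have h1 : 0 < Nat.size μ := Nat.size_pos.2 h
    obtain ⟨s, hs⟩ : ∃ s, Nat.size μ = s + 1 := ⟨Nat.size μ - 1, by omega⟩
    have h2 : 2 ^ s ≤ μ := Nat.lt_size.1 (by omega)
    rw [hs, pow_succ]
    omega

theorem Un.gr (hU : UnGr) {n μ : ℕ} {w : Fin n → ℕ} {S : Finset (Fin n)} (h : Un w S)
    (hμ : ∀ i ∈ S, w i ≤ μ) : Gr w S (Nat.size μ) :=
  hU h fun i hi => (hμ i hi).trans_lt (lt_pow_size μ)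

theorem un_exp (hE : ExpPure) (hU : UnGr) {n d : ℕ} {w : Fin n → ℕ} (h : Un w univ) :
    GenExp d w :=
  hE (h.gr hU (μ := univ.sup w) fun _ hi => Finset.le_sup (f := w) hi)

theorem packG_exp (hP : WinP) (hE : ExpAb) (hU : UnGr) {n d : ℕ} {w : Fin n → ℕ}
    (h : PackG d w) : GenExp d w := by
  obtain ⟨A, η, m1, μ, h1, h2, h3, h4, h5, h6, h7, h8⟩ := h
  have hκ := pow_size_le μ
  obtain ⟨κ, hk⟩ : ∃ κ, κ = Nat.size μ := ⟨_, rfl⟩
  rw [← hk] at hκ
  have hκR : (2 : ℝ) ^ κ ≤ 2 * μ + 1 := by exact_mod_cast hκ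
  refine @hE n d κ w A ?_ ?_
  · have hκ1 : (1 : ℝ) ≤ 2 ^ κ := one_le_pow₀ (by norm_num)
    have e1 : (A.val.map w).map (fun m : ℕ => ((m : ℝ) + 16 * (2 ^ 20 * (μ + 1) / η)) ^ 2) =
        A.val.map fun i => ((w i : ℝ) + 2 ^ 24 * (μ + 1) / η) ^ 2 := by
      rw [Multiset.map_map]
      refine Multiset.map_congr rfl fun i _ => ?_
      simp only [Function.comp_apply]
      ring
    have e2 : (A.val.map w).map (fun m : ℕ => (m : ℝ) * (m + 1)) =
        A.val.map fun i => (w i : ℝ) * (w i + 1) := by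
      rw [Multiset.map_map]
      rfl
    refine hP (G := 2 ^ 20 * (μ + 1) / η) (η := η) (m1 := m1) (A.val.map w) (by linarith) h1 h2 ?_
      h3 ?_ ?_ ?_
    · have : η * (2 ^ 20 * ((μ : ℝ) + 1) / η) = 2 ^ 20 * (μ + 1) := by field_simp
      rw [this]
      linarith
    · intro m hm
      rw [Multiset.mem_map] at hm
      obtain ⟨i, hi, rfl⟩ := hm
      exact h4 i hi
    · rw [e1]
      refine le_trans ?_ h7
      refine add_le_add (le_of_eq rfl) ?_
      refine mul_le_mul_of_nonneg_right ?_ (Nat.cast_nonneg _)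
      have h9 : (0 : ℝ) ≤ (μ + 1) / η := by positivity
      have h10 : 116 * (2 ^ 20 * ((μ : ℝ) + 1) / η) = 116 * 2 ^ 20 * ((μ + 1) / η) := by ring
      have h11 : 2 ^ 27 * ((μ : ℝ) + 1) / η = 2 ^ 27 * ((μ + 1) / η) := by ring
      rw [h10, h11]
      linarith
    · rw [e2]
      exact h8
  · rw [hk]
    refine h6.gr hU fun i hi => h5 i ?_
    rw [mem_sdiff] at hi
    exact hi.2

theorem wideG_exp (hW : Win3) (hE : ExpAb) (hU : UnGr) {n d : ℕ} {w : Fin n → ℕ}
    (h : WideG d w) : GenExp d w := by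
  classical
  obtain ⟨p, μ, h1, h2, h3, h4, h5, h6, h7⟩ := h
  have hκ := pow_size_le μ
  obtain ⟨κ, hk⟩ : ∃ κ, κ = Nat.size μ := ⟨_, rfl⟩
  rw [← hk] at hκ
  have hκR : (2 : ℝ) ^ κ ≤ 2 * μ + 1 := by exact_mod_cast hκ
  have hκ1 : (1 : ℝ) ≤ 2 ^ κ := one_le_pow₀ (by norm_num)
  have hK : (univ.image p).val.map w = {w (p 0), w (p 1), w (p 2)} := by
    rw [Finset.image_val_of_injOn h1.injOn, Multiset.map_map]
    rfl
  refine @hE n d κ w (univ.image p) ?_ ?_
  · rw [hK]
    refine hW (by linarith) h2 h3 h6 ?_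
    have h8 : ((w (p 0) + 2 ^ 28 * (μ + 1) : ℕ) : ℝ) ≤ d := by exact_mod_cast h7
    push_cast at h8
    linarith
  · rw [hk]
    refine h5.gr hU fun i hi => h4 i fun j hj => ?_
    rw [mem_sdiff, mem_image] at hi
    exact hi.2 ⟨j, mem_univ _, hj⟩

theorem chainG_exp (hC : WinC) (hE : ExpAb) (hU : UnGr) {n d : ℕ} {w : Fin n → ℕ}
    (h : ChainG d w) : GenExp d w := by
  classical
  obtain ⟨p, A, E, m, μ, hpA, hE0, hE1, hAm, hout, hun, hd, hch⟩ := h
  have hκ := pow_size_le μ
  obtain ⟨κ, hk⟩ : ∃ κ, κ = Nat.size μ := ⟨_, rfl⟩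
  rw [← hk] at hκ
  obtain ⟨t, ht⟩ : ∃ t : ℕ, t = 64 * 2 ^ κ := ⟨_, rfl⟩
  have ht1 : t ≤ 2 ^ 7 * (μ + 1) := by rw [ht]; omega
  have ht0 : 1 ≤ t := by
    rw [ht]
    have : 1 ≤ 2 ^ κ := Nat.one_le_two_pow
    omega
  set W : Multiset ℕ := A.val.map w with hW
  have hK : (insert p A).val.map w = {w p} + W := by
    rw [Finset.insert_val_of_notMem hpA, Multiset.map_cons, hW, Multiset.singleton_add]
  refine @hE n d κ w (insert p A) ?_ ?_
  · rw [hK]
    have h1 : WinAb (256 * ((t : ℕ) : ℝ)) ({w p} + W) d := by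
      refine hC (t := t) (m := m) (E := E) ht0 ⟨hE0, hE1, ?_, ?_, ?_⟩
      · intro x hx
        rw [hW, Multiset.mem_map] at hx
        obtain ⟨i, hi, rfl⟩ := hx
        exact hAm i hi
      · have h2 : 1 ≤ E 0 := hE1 0
        have h3 : 2 ^ 18 * t + 2 ^ 8 * E 0 * (2 ^ 18 * t) ≤ 2 ^ 34 * (μ + 1) * E 0 := by
          have h4 : 2 ^ 18 * t * 1 ≤ 2 ^ 18 * t * E 0 := Nat.mul_le_mul_left _ h2
          have h5 : 2 ^ 8 * E 0 * (2 ^ 18 * t) = 2 ^ 26 * (t * E 0) := by ring
          have h6 : 2 ^ 18 * t * E 0 = 2 ^ 18 * (t * E 0) := by ring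
          have h9 : t * E 0 ≤ 2 ^ 7 * ((μ + 1) * E 0) := by
            calc t * E 0 ≤ 2 ^ 7 * (μ + 1) * E 0 := Nat.mul_le_mul_right _ ht1
              _ = 2 ^ 7 * ((μ + 1) * E 0) := by ring
          have h7 : 2 ^ 34 * (μ + 1) * E 0 = 2 ^ 34 * ((μ + 1) * E 0) := by ring
          rw [h5, h7]
          rw [h6, mul_one] at h4
          generalize t * E 0 = y at *
          generalize (μ + 1) * E 0 = z at *
          omega
        omega
      · intro k hk1 hk2
        have h2 := hch k hk1 hk2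
        have h3 : (up W k).sum = ∑ i ∈ A, (w i - k) := by
          have h6 : (up W k).sum = ∑ i ∈ A.filter (fun i => k < w i), (w i - k) := by
            rw [hW, up, Multiset.filter_map, Multiset.map_map]
            rfl
          rw [h6]
          apply Finset.sum_filter_of_ne
          intro i _ hi
          omega
        have h4 : (W.filter fun x => k < x ∧ x ≤ k + 256 * (2 ^ 18 * t)).card ≤
            (A.filter fun i => k < w i ∧ w i ≤ k + 2 ^ 33 * (μ + 1)).card := by
          have e1 : (W.filter fun x => k < x ∧ x ≤ k + 256 * (2 ^ 18 * t)).card =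
              (A.filter fun i => k < w i ∧ w i ≤ k + 256 * (2 ^ 18 * t)).card := by
            rw [hW, Multiset.filter_map, Multiset.card_map, Finset.card_def, Finset.filter_val]
            exact congrArg Multiset.card (Multiset.filter_congr fun i _ => Iff.rfl)
          rw [e1]
          refine card_le_card fun i hi => ?_
          rw [mem_filter] at hi ⊢
          refine ⟨hi.1, hi.2.1, hi.2.2.trans ?_⟩
          omega
        rw [h3]
        refine le_trans ?_ h2
        refine Nat.add_le_add_left ?_ _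
        refine Nat.mul_le_mul ?_ (Nat.add_le_add_left (Nat.mul_le_mul_left _ h4) _)
        refine Nat.mul_le_mul_right _ ?_
        omega
    have h2 : (256 : ℝ) * ((t : ℕ) : ℝ) = 2 ^ 14 * 2 ^ κ := by
      rw [ht]
      push_cast
      ring
    rwa [h2] at h1
  · rw [hk]
    refine hun.gr hU fun i hi => ?_
    rw [mem_sdiff, mem_insert, not_or] at hi
    exact hout i hi.2.1 hi.2.2

/-- The class `(d; w)` is a union of families, or such a union together with three arbitrary multiplicities,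
or together with a chain of arbitrary multiplicities. -/
def GAt {n : ℕ} (d : ℕ) (w : Fin n → ℕ) : Prop :=
  Un w univ ∨ WideG d w ∨ ChainG d w

/-- The class `(d; w)` is one of these classes, or above such a class `(e; v)` without sections,
`e ≥ d`, `v ≤ w`, or below such a class `(e; v)`, `e ≤ d`, `w ≤ v`, with possibly more points, which
has at most as many conditions as coefficients. -/
def Graded {n : ℕ} (d : ℕ) (w : Fin n → ℕ) : Prop :=
  GAt d w ∨
    (∃ (e : ℕ) (v : Fin n → ℕ), d ≤ e ∧ (∀ i, v i ≤ w i) ∧ GAt e v ∧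
      (e + 2).choose 2 ≤ ∑ i, (v i + 1).choose 2) ∨
    ∃ (r e : ℕ) (v : Fin r → ℕ) (f : Fin n ↪ Fin r), e ≤ d ∧ (∀ i, w i ≤ v (f i)) ∧ GAt e v ∧
      ∑ i, (v i + 1).choose 2 ≤ (e + 2).choose 2

theorem gAt_exp (hP : ExpPure) (hE : ExpAb) (hU : UnGr) (hW : Win3) (hC : WinC) {n d : ℕ}
    {w : Fin n → ℕ} (h : GAt d w) : GenExp d w := by
  rcases h with h | h | h
  · exact un_exp hP hU h
  · exact wideG_exp hW hE hU h
  · exact chainG_exp hC hE hU h

theorem graded_exp (hP : ExpPure) (hE : ExpAb) (hU : UnGr) (hW : Win3) (hC : WinC) (hH : Hered)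
    {n d : ℕ} {w : Fin n → ℕ} (h : Graded d w) : GenExp d w := by
  rcases h with h | ⟨e, v, h1, h2, h3, h4⟩ | ⟨r, e, v, f, h1, h2, h3, h4⟩
  · exact gAt_exp hP hE hU hW hC h
  · intro K _ _ P hP'
    exact exp_low2 h1 h2 (gAt_exp hP hE hU hW hC h3 hP') h4
  · exact hH f h1 h2 h4 (gAt_exp hP hE hU hW hC h3)

/-- the points whose multiplicity occurs at least `2 ^ 29` times -/
def repeated {n : ℕ} (w : Fin n → ℕ) : Finset (Fin n) :=
  univ.filter fun i => 2 ^ 29 ≤ (univ.filter fun j => w j = w i).card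

/-- the multiplicities which occur, but less than `2 ^ 29` times -/
def rare {n : ℕ} (w : Fin n → ℕ) : Finset ℕ := (univ \ repeated w).image w

/-- Repeated multiplicities: a system with too many conditions at the points with repeated
multiplicities, or with enough room for the rare ones, is graded. -/
theorem rep_graded (hR : RepUn) {n d : ℕ} {w : Fin n → ℕ}
    (h : (d + 2).choose 2 ≤ ∑ i ∈ repeated w, (w i + 1).choose 2 ∨
      ∑ i, (w i + 1).choose 2 + 2 ^ 29 * ∑ a ∈ rare w, (a + 1).choose 2 ≤ (d + 2).choose 2) :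
    Graded d w := by
  classical
  rcases h with h | h
  · right
    left
    refine ⟨d, fun i => if i ∈ repeated w then w i else 0, le_rfl, fun i => ?_, Or.inl (hR ?_), ?_⟩
    · dsimp only
      split_ifs
      · exact le_rfl
      · exact Nat.zero_le _
    · intro i _ hi
      have h1 : i ∈ repeated w := by
        by_contra hcon
        exact hi (if_neg hcon)
      have h2 := (mem_filter.1 h1).2
      refine h2.trans (card_le_card fun j hj => ?_)
      rw [mem_filter] at hj ⊢
      refine ⟨mem_univ _, ?_⟩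
      have h3 : j ∈ repeated w := by
        rw [repeated, mem_filter]
        refine ⟨mem_univ _, ?_⟩
        rw [hj.2]
        exact h2
      rw [if_pos h1, if_pos h3, hj.2]
    · refine h.trans (le_of_eq ?_)
      rw [← sum_filter_add_sum_filter_not univ (fun i => i ∈ repeated w)
        (fun i => ((if i ∈ repeated w then w i else 0) + 1).choose 2)]
      have e1 : ∑ i ∈ univ.filter (fun i => i ∉ repeated w),
          ((if i ∈ repeated w then w i else 0) + 1).choose 2 = 0 := by
        refine sum_eq_zero fun i hi => ?_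
        rw [if_neg (mem_filter.1 hi).2]
        rfl
      rw [e1, add_zero]
      refine sum_congr (by ext i; simp) fun i hi => ?_
      have hi2 : i ∈ repeated w := by
        first
          | exact hi
          | exact (mem_filter.1 hi).2
      rw [if_pos hi2]
  · right
    right
    obtain ⟨m, hm⟩ : ∃ m, m = (rare w).card := ⟨_, rfl⟩
    let g : Fin m ≃ ↥(rare w) := (finCongr hm).trans (rare w).equivFin.symm
    let t : Fin n ⊕ (Fin m × Fin (2 ^ 29)) → ℕ := Sum.elim w fun x => ((g x.1 : ↥(rare w)) : ℕ)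
    let φ : Fin (n + m * 2 ^ 29) ≃ Fin n ⊕ (Fin m × Fin (2 ^ 29)) :=
      finSumFinEquiv.symm.trans (Equiv.sumCongr (Equiv.refl _) finProdFinEquiv.symm)
    have hsum : ∀ F : ℕ → ℕ, ∑ i, F (t (φ i)) = ∑ i, F (w i) + 2 ^ 29 * ∑ a ∈ rare w, F a := by
      intro F
      rw [φ.sum_comp (fun x => F (t x)), Fintype.sum_sum_type, Fintype.sum_prod_type]
      congr 1
      simp only [t, Sum.elim_inr, sum_const, card_univ, Fintype.card_fin, smul_eq_mul]
      rw [← mul_sum, g.sum_comp (fun a : ↥(rare w) => F a.1), sum_coe_sort (rare w) F]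
    refine ⟨n + m * 2 ^ 29, d, fun i => t (φ i), Function.Embedding.inl.trans φ.symm.toEmbedding,
      le_rfl, fun i => ?_, Or.inl (hR ?_), ?_⟩
    · simp [t]
    · intro i _ _
      have key : ∀ x : Fin n ⊕ (Fin m × Fin (2 ^ 29)), 2 ^ 29 ≤ (univ.filter fun y => t y = t x).card := by
        have hrare : ∀ k : Fin m, 2 ^ 29 ≤ (univ.filter fun y => t y = ((g k : ↥(rare w)) : ℕ)).card := by
          intro k
          have h1 : (univ : Finset (Fin (2 ^ 29))).card ≤
              (univ.filter fun y => t y = ((g k : ↥(rare w)) : ℕ)).card := by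
            refine card_le_card_of_injOn (fun l => Sum.inr (k, l)) (fun l _ => ?_) ?_
            · simp [t]
            · intro l1 _ l2 _ hl
              simpa using hl
          rwa [card_univ, Fintype.card_fin] at h1
        rintro (i | ⟨k, l⟩)
        · by_cases hi : i ∈ repeated w
          · refine (mem_filter.1 hi).2.trans ?_
            refine card_le_card_of_injOn (fun j => Sum.inl j) (fun j hj => ?_) ?_
            · have hj' := (mem_filter.1 (mem_coe.1 hj)).2
              rw [mem_coe, mem_filter]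
              exact ⟨mem_univ _, hj'⟩
            · intro l1 _ l2 _ hl
              simpa using hl
          · have h1 : w i ∈ rare w := mem_image.2 ⟨i, by simp [hi], rfl⟩
            have h2 := hrare (g.symm ⟨w i, h1⟩)
            rw [Equiv.apply_symm_apply] at h2
            exact h2
        · exact hrare k
      refine (key (φ i)).trans ?_
      refine card_le_card_of_injOn (fun y => φ.symm y) (fun y hy => ?_) ?_
      · have hy' := (mem_filter.1 (mem_coe.1 hy)).2
        simp [hy']
      · intro l1 _ l2 _ hl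
        simpa using hl
    · exact (hsum fun a => (a + 1).choose 2).trans_le h

end Pool.Agent.H200G
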