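import Pool.Agent.Q162.GR.StepS
import Pool.Agent.Q162.GR.StepE
import Pool.Agent.Q162.GR.Regroup
import Pool.Agent.Q162.GR.PureC
import Pool.Agent.Q162.GR.KC
import Pool.Agent.Q211.GR.Num0
import Pool.Agent.Q211.GR.Slab
import Pool.Agent.Q211.GR.TrW
import Pool.Agent.Q211.GR.KC2
import Pool.Agent.Q211.GR.Rank
import Pool.Agent.Q195.GR.Exp
import Pool.Agent.Q66.GR.Units
import Pool.Agent.Q66.GR.Leaf
import Pool.Agent.Q26.GR.Win
import Pool.Agent.Q199.GR.UnGr
import Pool.Agent.Q111.GR.Hered
import Pool.Agent.Q184.GR.MainR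
import Pool.Agent.Q208.GR.Color
import Pool.Agent.Q208.GR.ColNum
import Pool.Agent.Q208.GR.Corner
import Pool.Agent.Q200.GR.Acc
import Pool.Agent.H200C.Asm
import Pool.Agent.H200G.Fin

/-! # Project GR: the assembly of the lemmas.

The lemmas of `Stm`, ..., `Stm5` were proved by helper26, helper66, helper111, helper162, helper184, helper195,
helper199, helper200, helper208 and helper211. -/

set_option autoImplicit false

namespace Pool.Agent.H200G

open Pool.Agent

theorem p_stepS : StepS := Q162.GR.stepS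
theorem p_stepE : StepE := Q162.GR.stepE
theorem p_num0 : Num0 := Q211.GR.num0
theorem p_slab : Slab := Q211.GR.slab p_stepS p_stepE p_num0
theorem p_trW : TrW := Q211.GR.trW
theorem p_trU : TrU := Q211.GR.trU
theorem p_cutl : Cutl := Q162.GR.cutl
theorem p_regroup : Regroup := Q162.GR.regroup p_slab p_trU p_cutl
theorem p_unitsR : UnitsR := Q66.GR.unitsR
theorem p_leafG : LeafG := Q66.GR.leafG
theorem p_numG : NumG := Q66.GR.numG
theorem p_acc : Acc := Q200.GR.acc
theorem p_color : Color := Q208.GR.color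
theorem p_colNum : ColNum := Q208.GR.colNum
theorem p_pureC : PureC :=
  Q162.GR.pureC p_slab p_trW p_unitsR p_leafG p_numG p_acc p_color p_colNum
theorem p_kC : KC := Q162.GR.kC p_regroup p_unitsR p_leafG p_numG p_acc p_color p_colNum
theorem p_kC2 : KC2 := Q211.GR.kC2 p_kC
theorem p_corner3 : Corner3 := Q208.GR.corner3
theorem p_win3 : Win3 := Q26.GR.win3 p_corner3
theorem p_winP : WinP := Q26.GR.winP
theorem p_rankG : RankG := Q211.GR.rankG
theorem p_expPure : ExpPure := Q195.GR.expPure p_pureC p_rankG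
theorem p_expAb : ExpAb := Q195.GR.expAb p_kC2 p_rankG
theorem p_unGr : UnGr := Q199.GR.unGr
theorem p_repUn : RepUn := Q199.GR.repUn
theorem p_hered : Hered := Q111.GR.hered

end Pool.Agent.H200G
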