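import Pool.Agent.H200G.All

/-! # Project GR: arbitrary large multiplicities and a union of families. -/

set_option autoImplicit false

namespace Pool.Agent.H200G

open Finset Pool.Agent.H200W Pool.Agent.H200P Pool.Agent.H200C Pool.Agent.W609.CR Pool.Agent

/-- Arbitrary large multiplicities, the others at most `μ` and a union of families: three arbitrary ones
with `w (p 0) + w (p 1) + w (p 2) ≤ d`, `w (p 0) + 2 ^ 28 (μ + 1) ≤ d`; or a chain of arbitrary ones with
margin; or arbitrary ones which can be packed with a margin. -/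
def CoreG {n : ℕ} (d : ℕ) (w : Fin n → ℕ) : Prop := WideG d w ∨ ChainG d w ∨ PackG d w

/-- `CoreG d w`; or `(d; w)` lies above such a class `(e; v)` without sections, `e ≥ d`, `v ≤ w`, or below
such a class `(e; v)`, `e ≤ d`, `w ≤ v`, with possibly more points, which has at most as many conditions
as coefficients. -/
def CoreFam {n : ℕ} (d : ℕ) (w : Fin n → ℕ) : Prop :=
  CoreG d w ∨
    (∃ (e : ℕ) (v : Fin n → ℕ), d ≤ e ∧ (∀ i, v i ≤ w i) ∧ CoreG e v ∧
      (e + 2).choose 2 ≤ ∑ i, (v i + 1).choose 2) ∨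
    ∃ (r e : ℕ) (v : Fin r → ℕ) (f : Fin n ↪ Fin r), e ≤ d ∧ (∀ i, w i ≤ v (f i)) ∧ CoreG e v ∧
      ∑ i, (v i + 1).choose 2 ≤ (e + 2).choose 2

theorem coreG_all {n d : ℕ} {w : Fin n → ℕ} (h : CoreG d w) : GenExp d w := by
  rcases h with h | h | h
  · exact wideG_exp p_win3 p_expAb p_unGr h
  · exact chainG_exp p_winC p_expAb p_unGr h
  · exact packG_exp p_winP p_expAb p_unGr h

theorem coreFam_all {n d : ℕ} {w : Fin n → ℕ} (h : CoreFam d w) : GenExp d w := by
  rcases h with h | ⟨e, v, h1, h2, h3, h4⟩ | ⟨r, e, v, f, h1, h2, h3, h4⟩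
  · exact coreG_all h
  · intro K _ _ P hP'
    exact exp_low2 h1 h2 (coreG_all h3 hP') h4
  · exact p_hered f h1 h2 h4 (coreG_all h3)

end Pool.Agent.H200G
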