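import Pool.Agent.H200C.Def

/-! # Project GR (graded multiplicities, many scales). Definitions.

The points are divided into groups `k` (colors); the multiplicities in the group `k` are less than `2 ^ k`,
and they are treated as units of height `et k = 256 * 2 ^ k`. The groups are put into horizontal slabs of one
right triangle; the order of the slabs is chosen by the ratio of the need and the height. -/

set_option autoImplicit false

namespace Pool.Agent.H200G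

open Finset Pool.Agent.TH176.Nag Pool.Agent.TH603.Sur Pool.Agent.TH2.NU Pool.Agent.TH641.UM
open Pool.Agent.Y205.FW Pool.Agent.Y205.MD Pool.Agent.H200W Pool.Agent.H200P Pool.Agent.H200C

/-- the height of the units of the group `k` -/
noncomputable def et (k : ℕ) : ℝ := 256 * 2 ^ k

/-- `M` is independent on all open right triangles of slope between `2` and `R` with twice the area at least
`n` plus `3 / 2` of the height -/
def TrS (R : ℝ) (M : Multiset ℕ) (n : ℝ) : Prop :=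
  ∀ ρ b : ℝ, 2 ≤ ρ → ρ ≤ R → 0 < b → n + 3 / 2 * (b / ρ) ≤ b ^ 2 / ρ → SurM M (RO b ρ)

/-- `M` is empty on all closed right triangles of slope between `2` and `R` with twice the area at most `n` -/
def TrE (R : ℝ) (M : Multiset ℕ) (n : ℝ) : Prop :=
  ∀ ρ b : ℝ, 2 ≤ ρ → ρ ≤ R → 0 < b → b ^ 2 / ρ ≤ n → EmpM M (RC b ρ)

/-- the multiset of a list of items (multiset, need for independence, need for emptiness) -/
def tM (L : List (Multiset ℕ × ℝ × ℝ)) : Multiset ℕ := (L.map fun x => x.1).sum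

/-- the total need for independence -/
noncomputable def tS (L : List (Multiset ℕ × ℝ × ℝ)) : ℝ := (L.map fun x => x.2.1).sum

/-- the total need for emptiness -/
noncomputable def tE (L : List (Multiset ℕ × ℝ × ℝ)) : ℝ := (L.map fun x => x.2.2).sum

/-- an item of height `h` whose two needs are comparable -/
def It (h : ℝ) (x : Multiset ℕ × ℝ × ℝ) : Prop :=
  UnitS h x.1 x.2.1 ∧ UnitE h x.1 x.2.2 ∧ 0 ≤ x.2.2 ∧ x.2.2 ≤ 1024 * h ^ 2 ∧ x.2.2 ≤ x.2.1 ∧
    x.2.1 ≤ 5 / 4 * x.2.2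

/-- an item of height `h` -/
def Iw (h : ℝ) (x : Multiset ℕ × ℝ × ℝ) : Prop :=
  UnitS h x.1 x.2.1 ∧ UnitE h x.1 x.2.2 ∧ 0 ≤ x.2.1 ∧ x.2.1 ≤ 1024 * h ^ 2 ∧ 0 ≤ x.2.2 ∧
    x.2.2 ≤ 1024 * h ^ 2

/-- `2 (number of monomials of degree f) - 2 (number of conditions of K)` -/
noncomputable def XX (K : Multiset ℕ) (f : ℕ) : ℝ :=
  2 * ((HX 0 0 0 f).card : ℝ) - 2 * (TH2.NU.condM K : ℝ)

/-- the sum of the multiplicities of the classes `(256 N v, v)` -/
def WW (V : Finset ℕ) (N : ℕ → ℕ) : ℕ := ∑ v ∈ V, 256 * N v * v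

/-- The data of one group after the splitting into classes `(256 N v, v)` and rare groups `R`. -/
def Col (k : ℕ) (V : Finset ℕ) (N : ℕ → ℕ) (R : List (ℕ × ℕ)) : Prop :=
  (∀ v ∈ V, 1 ≤ v ∧ v + 1 ≤ 2 ^ k ∧ 1 ≤ N v ∧ 4 * et k ≤ N v * (16 * (v : ℝ))) ∧
  (∀ x ∈ R, 1 ≤ x.1 ∧ 1 ≤ x.2 ∧ x.2 + 1 ≤ 2 ^ k ∧ (x.1 : ℝ) * ((x.2 : ℝ) + 1) ≤ 256 * et k) ∧
  257 * et k ^ 2 * ((R.length : ℝ) + V.card) ≤ ∑ v ∈ V, (256 * N v : ℝ) * (v : ℝ) ^ 2 ∧
  3 / 2 * (2 ^ 26 * 4 ^ k) ≤ ∑ v ∈ V, (256 * N v : ℝ) * (v : ℝ) ^ 2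

/-- the multiset `w` belongs to the group `k` and is large enough for its number of values -/
def Grp (k : ℕ) (w : Multiset ℕ) : Prop :=
  w ≠ 0 ∧ (∀ v ∈ w, 1 ≤ v ∧ v < 2 ^ k) ∧
    2 ^ 27 * 4 ^ k * w.toFinset.card ≤ (w.map fun v => v ^ 2).sum

/-- The multiplicities `w i`, `i ∈ S`, are graded: there are groups `k ≤ κ` such that in the group `k` all
multiplicities are less than `2 ^ k` and the sum of their squares is at least `2 ^ 27 * 4 ^ k` times the number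
of their nonzero values. -/
def Gr {n : ℕ} (w : Fin n → ℕ) (S : Finset (Fin n)) (κ : ℕ) : Prop :=
  ∃ c : Fin n → ℕ, (∀ i ∈ S, w i < 2 ^ c i ∧ c i ≤ κ) ∧
    ∀ k, 2 ^ 27 * 4 ^ k * ((S.filter fun i => c i = k ∧ w i ≠ 0).image w).card ≤
      ∑ i ∈ S.filter (fun i => c i = k), w i ^ 2

end Pool.Agent.H200G
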