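import Pool.Agent.H200G.Fin
import Pool.Agent.Q111.GR.Lem
import Pool.Agent.H932R7.Fin2

/-! # One open set for all degrees -/

set_option autoImplicit false

namespace Pool.Agent.H200G

open Finset Pool.Agent.H200W Pool.Agent.H200P Pool.Agent.H932R3 Pool.Agent.W609.CR

theorem all_open {n : ℕ} {w : Fin n → ℕ} (h : ∀ d, GenExp d w) :
    ∃ F : MvPolynomial (Fin n × Fin 2) ℚ, F ≠ 0 ∧ ∀ {L : Type} [Field L] [CharZero L]
      (P : Fin n → Fin 2 → L), MvPolynomial.aeval (fun ij : Fin n × Fin 2 => P ij.1 ij.2) F ≠ 0 →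
      ∀ d, ExpDim L w P d := by
  classical
  have hex : ∃ f, ∑ i, (w i + 1).choose 2 ≤ (f + 2).choose 2 := by
    refine ⟨∑ i, (w i + 1).choose 2, ?_⟩
    have h1 := Pool.Agent.H932R7.two_choose (∑ i, (w i + 1).choose 2)
    nlinarith
  obtain ⟨f, hf⟩ : ∃ f, f = Nat.find hex := ⟨_, rfl⟩
  have hf1 := Nat.find_spec hex
  have hf2 := fun d => Nat.find_min hex (m := d)
  rw [← hf] at hf1 hf2
  obtain ⟨F1, h1, h1'⟩ := Pool.Agent.TH603.Sur.indep_open
    (Pool.Agent.Q111.GR.sur_of_exp hf1 (h f))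
  rcases Nat.eq_zero_or_pos f with h0 | h0
  · exact ⟨F1, h1, fun {L} _ _ P hP d => h1' P hP d (by omega)⟩
  · obtain ⟨F2, h2, h2'⟩ := Pool.Agent.TH442.NF.to_open (d := f - 1) (w := w) (h (f - 1))
    refine ⟨F1 * F2, mul_ne_zero h1 h2, fun {L} _ _ P hP d => ?_⟩
    rw [map_mul] at hP
    rcases Nat.lt_or_ge d f with h3 | h3
    · refine exp_low2 (e := f - 1) (by omega) (fun i => le_rfl)
        (h2' (L := L) P (right_ne_zero_of_mul hP)) ?_
      exact (not_le.1 (hf2 (f - 1) (by omega))).le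
    · exact h1' P (left_ne_zero_of_mul hP) d h3

end Pool.Agent.H200G
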