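import Pool.Agent.H200G.Def

/-! # Project GR: statements of the lemmas, with their proofs. Part 1: slabs and units.

All lemmas of the projects WR, PK and CH are available: `Pool.Agent.H200W.p_...` (H200W/All.lean) and
`Pool.Agent.H200P.p_...` (H200P/All.lean, imported here). -/

set_option autoImplicit false

namespace Pool.Agent.H200G

open Finset Pool.Agent.TH176.Nag Pool.Agent.TH603.Sur Pool.Agent.TH2.NU Pool.Agent.TH641.UM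
open Pool.Agent.Y205.FW Pool.Agent.Y205.MD Pool.Agent.H200W Pool.Agent.H200P Pool.Agent.H200C

/-! ## A. Slabs of a right triangle -/

/-- GR1. One more slab, independence. -/
def StepS : Prop := ∀ {R η nA Y : ℝ} {A : Multiset ℕ} (L : List (Multiset ℕ × ℝ)), 2 ≤ R → 1 ≤ η →
  0 ≤ nA → TrS R A nA → (∀ x ∈ L, UnitS η x.1 x.2 ∧ 0 ≤ x.2) → 0 ≤ Y →
  R * (nA + (L.map Prod.snd).sum) ≤ Y ^ 2 → (4 * η + 1) * (3 + 2 * Y) ≤ (L.map Prod.snd).sum →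
  TrS R (A + (L.map Prod.fst).sum) (nA + (L.map Prod.snd).sum)

/-- GR1. Proof. Put `nG = (L.map Prod.snd).sum`, `n = nA + nG`. Let `ρ`, `b` be given. From
`n + 3 / 2 * (b / ρ) ≤ b ^ 2 / ρ` one has `b ^ 2 - 3 / 2 * b ≥ ρ n ≥ 0`, so `b ≥ b0 = 3 / 4 + √(9 / 16 + ρ n)`, and
`RO b0 ρ ⊆ RO b ρ` (`SurM.mono`-type lemma); `b0 ^ 2 - 3 / 2 * b0 = ρ n`, `b0 ≤ 3 / 2 + √(ρ n) ≤ 3 / 2 + Y`. Let
`b' = 3 / 4 + √(9 / 16 + ρ nA) ≥ 3 / 2`, `b' ^ 2 - 3 / 2 * b' = ρ nA`, and `t = (b0 - b') / ρ`, so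
`t (b0 + b' - 3 / 2) = nG` and `b0 + b' - 3 / 2 ≤ 3 + 2 Y`, hence `t ≥ 4 η + 1`. Cut `RO b0 ρ` by the line `y = t`
(`p_cutS` with `α = 0`, `β = 1`, `c = t`): `S1 = TO b0 ρ t` and `S2 = {p | p ∈ RO b0 ρ ∧ t < p.2}`
(`add_comm` for the order of the two multisets).
`S1`: `Q274.WR.trapS p_nodeS p_ktrapS` (see `p_fatS` in H200W/All.lean; the statement is `S_TrapS` of
H200W/Stm2.lean), since `b0 - ρ t = b' ≥ 1 / 2`, reduces it to `RO (σ (t / 2)) σ`,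
`σ = 4 (2 b0 - ρ t - 1) / t = 4 (b0 + b' - 1) / t`; `b0 ≥ ρ t ≥ 2 t` gives `σ ≥ 8`. `p_rtS` with `h = η`, `u = nG`:
`4 σ η < σ t - 1` as `t ≥ 4 η + 1`, `σ > 1`; with `b = σ t / 2`: `b ^ 2 / σ - b / σ = (b0 + b' - 1) t - t / 2 = nG`.
(Every need in `L` is at most `nG`, as the needs are nonnegative.)
`S2`: `p_colS` with `lo x = t` and `q x = (b' - x) / ρ` for `x > 0`, `q x = 0` otherwise (`b0 = b' + ρ t`),
then the set `{p | 0 < p.2 ∧ p.2 < q p.1}` is `RO b' ρ`, and `TrS R A nA` applies with equality. -/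
def S_StepS : Prop := StepS

/-- GR2. One more slab (or the first one), emptiness. -/
def StepE : Prop := ∀ {R η nA Y : ℝ} {A : Multiset ℕ} (L : List (Multiset ℕ × ℝ)), 2 ≤ R → 1 ≤ η →
  (A = 0 ∧ nA = 0 ∨ 0 < nA ∧ TrE R A nA) → (∀ x ∈ L, UnitE η x.1 x.2 ∧ 0 ≤ x.2) → 0 ≤ Y →
  R * (nA + (L.map Prod.snd).sum) ≤ Y ^ 2 → (4 * η + 1) * (3 + 2 * Y) ≤ (L.map Prod.snd).sum →
  TrE R (A + (L.map Prod.fst).sum) (nA + (L.map Prod.snd).sum)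

/-- GR2. Proof. Notation as in GR1. Let `b0 = √(ρ n) ≥ b`, `RC b ρ ⊆ RC b0 ρ`, `b0 ≤ Y`.
First case (`A = 0`): `p_rtE` with `h = η`, `b0 ^ 2 / ρ = nG`; the condition `2 ρ η < b0`: `nG ≥ 8 η Y ≥ 8 η b0` and
`b0 ^ 2 = ρ nG ≥ 8 ρ η b0`, `b0 > 0`. Second case: `b' = √(ρ nA) > 0`, `t = (b0 - b') / ρ`, `t (b0 + b') = nG`, so
`t ≥ 4 η + 1`. `p_cutE` (`RC b0 ρ` is finite) with `S1 = TC b0 ρ t` and
`S2 = {p | 0 ≤ p.1 ∧ t ≤ p.2 ∧ p.1 + ρ p.2 ≤ b0}`. `S1`: `S_TrapE` (`Q274.WR.trapE p_nodeE p_ktrapE`), then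
`p_rtE` on `RC (σ (t / 2)) σ`, `σ = 4 (2 b0 - ρ t) / t ≥ 8`, `2 σ η < σ t / 2`, `(σ t / 2) ^ 2 / σ = (b0 + b') t = nG`.
`S2`: `p_colE` with `lo x = t`, `q x = (b' - x) / ρ` for `x ≥ 0` and `-1` otherwise; then `TrE R A nA` on
`RC b' ρ`. -/
def S_StepE : Prop := StepE

/-- GR3. The numbers. -/
def Num0 : Prop := ∀ (J : Finset ℕ) (n : ℕ → ℝ) (B : ℕ), B ∈ J → (∀ k ∈ J, 1024 * et k ^ 2 ≤ n k) →
  (∀ k ∈ J, n k / et k ≤ n B / et B) →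
  ∃ Y : ℝ, 0 ≤ Y ∧ 7 * ∑ k ∈ J, n k ≤ Y ^ 2 ∧ (4 * et B + 1) * (3 + 2 * Y) ≤ n B

/-- GR3. Proof. Let `q = n B / et B`. For `k ∈ J`: `n k ≤ q et k` and `1024 et k ≤ n k / et k ≤ q`, so with the largest
`m ∈ J`: `∑ k ∈ J, et k ≤ 2 et m ≤ q / 512` (distinct powers of two, `Nat.geomSum_lt`), and
`7 ∑ n k ≤ 7 q ^ 2 / 512 ≤ Y ^ 2` for `Y = 117 / 1000 * q`. `et B ≥ 256`, so
`(4 et B + 1) (3 + 2 Y) ≤ et B (4 + 1 / 256) (3 + 234 / 1000 q) ≤ et B q = n B`, as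
`q ≥ 1024 et B ≥ 2 ^ 18` (`(4 + 1 / 256) * 234 / 1000 < 937 / 1000`, `(4 + 1 / 256) * 3 ≤ 13`). -/
def S_Num0 : Prop := Num0

/-- GR4. Several groups in one right triangle. -/
def Slab : Prop := ∀ (J : Finset ℕ) (L : ℕ → List (Multiset ℕ × ℝ × ℝ)),
  (∀ k ∈ J, ∀ x ∈ L k, UnitS (et k) x.1 x.2.1 ∧ UnitE (et k) x.1 x.2.2 ∧ 0 ≤ x.2.2 ∧ x.2.2 ≤ x.2.1) →
  (∀ k ∈ J, 1024 * et k ^ 2 ≤ tE (L k)) →
  TrS 7 (∑ k ∈ J, tM (L k)) (∑ k ∈ J, tS (L k)) ∧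
    (J.Nonempty → TrE 7 (∑ k ∈ J, tM (L k)) (∑ k ∈ J, tE (L k)))

/-- GR4. Proof. The two parts separately, by induction on the number of elements of `J` (strong induction
on the finset). First part: `J = ∅`: `TrS 7 0 0` (`H200P.surM_zero`). Otherwise take
`B ∈ J` with the largest `tS (L B) / et B` (`Finset.exists_max_image`); GR3 with `n k = tS (L k) ≥ tE (L k)`, the
induction hypothesis for `A = J.erase B`, and GR1 with `η = et B` and the list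
`(L B).map fun x => (x.1, x.2.1)`. Second part: the same with `tE` and GR2; if `J.erase B = ∅` then `A = 0`,
`nA = 0`; otherwise `nA > 0`. -/
def S_Slab : Prop := StepS → StepE → Num0 → Slab

/-- GR5. From right triangles to the monomials of degree `d`. -/
def TrW : Prop := ∀ {M : Multiset ℕ} {s e : ℝ} {d : ℕ},
  (TrS 7 M s → s + 3 / 4 * ((d : ℝ) + 3) ≤ ((d : ℝ) + 3) ^ 2 →
    SurM M (↑(HX 0 0 0 d) : Set (ℤ × ℤ))) ∧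
  (TrE 7 M e → (d : ℝ) ^ 2 ≤ e → 1 ≤ e → EmpM M (↑(HX 0 0 0 d) : Set (ℤ × ℤ)))

/-- GR5. Proof. Independence: `HX 0 0 0 d`, shifted by `(1, 1)`, is `RO (d + 3) 1` (`Sur.shift`, as in
`S_Win`); `p_tipS` with `b = d + 3`, `ρ = 1` reduces it to `RO (2 (d + 3)) 4`, where `b / ρ = (d + 3) / 2`,
`b ^ 2 / ρ = (d + 3) ^ 2`. Emptiness: let `b = max d 1`, `b ^ 2 ≤ e`; `HX 0 0 0 d ⊆ RC b 1`; `p_tipE` and `TrE`
with `RC (2 b) 4`, `(2 b) ^ 2 / 4 = b ^ 2`. -/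
def S_TrW : Prop := TrW

/-- GR6. From right triangles to units. -/
def TrU : Prop := ∀ {M : Multiset ℕ} {s e h : ℝ}, 1 ≤ h → TrS 7 M s → TrE 7 M e → 2 * h ^ 2 ≤ e →
  e ≤ s → s + 3 / 2 * h ≤ 7 * h ^ 2 → UnitS h M (s + 3 / 2 * h) ∧ UnitE h M e

/-- GR6. Proof. `UnitS`: let `ρ0 = (s + 3 / 2 * h) / h ^ 2`, `2 ≤ ρ0 ≤ 7`, `ρ0 ≤ ρ`, so `RO (ρ0 h) ρ0 ⊆ RO (ρ h) ρ`
(`x < ρ0 (h - y) ≤ ρ (h - y)`), and `TrS` with `b = ρ0 h`: `s + 3 / 2 * h = ρ0 h ^ 2 = b ^ 2 / ρ0`. `UnitE`: `ρ0 = e / h ^ 2`,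
`2 ≤ ρ0 ≤ 7`, `RC (ρ h) ρ ⊆ RC (ρ0 h) ρ0` for `0 < ρ ≤ ρ0`. -/
def S_TrU : Prop := TrU

/-- GR7. Cutting a list into parts of about equal weight. -/
def Cutl : Prop := ∀ {α : Type} (f : α → ℝ) (T c : ℝ) (L : List α), 0 < T → 0 ≤ c →
  (∀ x ∈ L, 0 ≤ f x ∧ f x ≤ c) → T ≤ (L.map f).sum →
  ∃ P : List (List α), P.flatten = L ∧ ∀ l ∈ P, T ≤ (l.map f).sum ∧ (l.map f).sum ≤ 2 * T + c

/-- GR7. Proof. Strong induction on the length. If the total weight is at most `2 T + c` take `[L]`.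
Otherwise the shortest initial part with weight at least `T` has weight less than `T + c`
(compare `Q53.WR.split_ge`), the rest has weight more than `T` and is shorter. -/
def S_Cutl : Prop := Cutl

/-- GR8. Items of many small heights are grouped to items of height `h`. -/
def Regroup : Prop := ∀ (J : Finset ℕ) (L : ℕ → List (Multiset ℕ × ℝ × ℝ)) (h : ℝ), 1 ≤ h →
  (∀ k ∈ J, ∀ x ∈ L k, It (et k) x) → (∀ k ∈ J, 1024 * et k ^ 2 ≤ tE (L k)) →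
  (∀ k ∈ J, 64 * et k ≤ h) → 2 * h ^ 2 ≤ ∑ k ∈ J, tE (L k) →
  ∃ L' : List (Multiset ℕ × ℝ × ℝ), (∀ x ∈ L', Iw h x) ∧ tM L' = ∑ k ∈ J, tM (L k) ∧
    tS L' ≤ ∑ k ∈ J, tS (L k) + 3 / 4 * (∑ k ∈ J, tE (L k)) / h ∧ tE L' = ∑ k ∈ J, tE (L k)

/-- GR8. Proof. For `k ∈ J` GR7 with `f x = x.2.2`, `T = c = 1024 et k ^ 2` cuts `L k` into bundles of
E-weight between `1024 et k ^ 2` and `3 * 1024 et k ^ 2 ≤ h ^ 2` (`64 et k ≤ h`). Make one list of all pairs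
(`k`, bundle), with the E-weight as weight, between `0` and `h ^ 2`, total weight at least `2 h ^ 2`; GR7 with
`T = 2 h ^ 2`, `c = h ^ 2` cuts it into parts of E-weight `e` between `2 h ^ 2` and `5 h ^ 2`. For one part `p` let
`Jp` be the set of its `k` and `Lp k` the concatenation of its bundles with first component `k`; every
bundle alone has E-weight at least `1024 et k ^ 2`, so GR4 applies to `Jp`, `Lp` (`Jp` is not empty). The S-weight `s` is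
at most `5 / 4 * e ≤ 25 / 4 * h ^ 2`, so `s + 3 / 2 * h ≤ 7 h ^ 2` (`h ≥ 64 * 512`: `J` is not empty as the total weight
is positive) and GR6 gives an item `(M, s + 3 / 2 * h, e)` with `Iw h`. The number `N` of parts satisfies
`2 h ^ 2 N ≤ ∑ tE`, so `3 / 2 * h * N ≤ 3 / 4 * (∑ tE) / h`. Sums over nested lists: `List.sum_flatten`,
`List.map_flatten`. -/
def S_Regroup : Prop := Slab → TrU → Cutl → Regroup

/-- GR9. The items of one group. -/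
def UnitsR : Prop := ∀ {h : ℝ} (V : Finset ℕ) (N a : ℕ → ℕ) (R : List (ℕ × ℕ)), 256 ≤ h →
  (∀ v ∈ V, 1 ≤ N v ∧ 16 ≤ a v ∧ 16 * ((a v : ℝ) + 1) ≤ h ∧ 4 * h ≤ N v * (a v : ℝ)) →
  (∀ x ∈ R, 1 ≤ x.1 ∧ 1 ≤ x.2 ∧ 16 * ((x.2 : ℝ) + 1) ≤ h ∧ x.1 * ((x.2 : ℝ) + 1) ≤ 256 * h) →
  257 * h ^ 2 * ((R.length : ℝ) + V.card) ≤ ∑ v ∈ V, (N v : ℝ) * (a v : ℝ) ^ 2 →
  ∃ L : List (Multiset ℕ × ℝ × ℝ), (∀ x ∈ L, It h x) ∧ tM L = lf V N a R ∧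
    tS L ≤ 2 * (TH2.NU.condM (lf V N a R) : ℝ) + E0 V N a R ∧
    2 * (TH2.NU.condM (lf V N a R) : ℝ) - E0 V N a R ≤ tE L ∧
    9 / 10 * ∑ v ∈ V, (N v : ℝ) * (a v : ℝ) ^ 2 ≤ tE L

/-- GR9. Proof. This is `Units` (H200W/Stm4.lean, proved in Pool/Agent/Q53/WR/Attach.lean by
`Q53.WR.attach` and `Q53.WR.units`) with more information about the items; copy that file and carry the
two additional conjuncts `x.2.2 ≤ x.2.1 ∧ x.2.1 ≤ 5 / 4 * x.2.2`. For a block alone (`single_unit`)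
`s = N (a + 1) ^ 2 + 2 h`, `e = N a ^ 2 - 1`, with `N (a + 1) ^ 2 ≤ (17 / 16) ^ 2 N a ^ 2`,
`2 h ≤ N a / 2 ≤ N a ^ 2 / 32`, `N a ^ 2 ≥ 16 * 4 h`, so `s ≤ 1.161 N a ^ 2` and `1.25 (N a ^ 2 - 1) ≥ 1.161 N a ^ 2`. For a pair
(`rare_unit`) `s = N (u + 1) ^ 2 + k (l + 1) ^ 2 + 4 h`, `e = N u ^ 2 + k l ^ 2 - 1`, with
`k (l + 1) ^ 2 ≤ 16 h ^ 2 ≤ N u ^ 2 / 16`, `4 h ≤ N u / 2 ≤ N u ^ 2 / 32` (`8 h ≤ N u`), so
`s ≤ 1.223 N u ^ 2 ≤ 1.25 (N u ^ 2 - 1)`. The sums are converted as in Pool/Agent/Q111/WR/LeafC.lean: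
`2 condM (lf) = ∑ N a (a + 1) + ∑ k (l + 1) l`, `N (a + 1) ^ 2 = N a (a + 1) + N (a + 1)`,
`N a ^ 2 = N a (a + 1) - N a`. Last part: `tE L ≥ ∑ (N a ^ 2 - N (a + 1) / 2)` and
`N (a + 1) / 2 ≤ (17 / 32) N a ≤ N a ^ 2 / 16 * (17 / 32)`. -/
def S_UnitsR : Prop := UnitsR

end Pool.Agent.H200G
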