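import Pool.Agent.H200G.Stm

/-! # Project GR: statements of the lemmas, with their proofs. Part 2: numbers and coranks. -/

set_option autoImplicit false

namespace Pool.Agent.H200G

open Finset Pool.Agent.TH176.Nag Pool.Agent.TH603.Sur Pool.Agent.TH2.NU Pool.Agent.TH641.UM
open Pool.Agent.Y205.FW Pool.Agent.Y205.MD Pool.Agent.H200W Pool.Agent.H200P Pool.Agent.H200C

/-! ## B. Coranks, in general -/

/-- the conclusion of GR10: `K` fixed points, `F` the leaf -/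
def Tri3 (d : ℕ) (K F : Multiset ℕ) (s e Z : ℝ) : Prop :=
  crkM (HX 0 0 0 d) (K + F) = 0 ∨
    crkM (HX 0 0 0 d) (K + F) + TH2.NU.condM (K + F) ≤ (HX 0 0 0 d).card ∨
    (e - Z < XX K d ∧ 2 * (crkM (HX 0 0 0 d) (K + F) : ℝ) ≤ s - 2 * (TH2.NU.condM F : ℝ) + Z)

/-- GR10. The corank in three cases. -/
def LeafG : Prop := ∀ {d : ℕ} (K F : Multiset ℕ) (s e Z : ℝ) (Λ : ℕ → ℝ),
  (∀ f, d ≤ f → 0 ≤ Λ f) →
  (∀ f, d ≤ f → s ≤ XX K f - Λ f → SurM (K + F) (↑(HX 0 0 0 f) : Set (ℤ × ℤ))) →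
  (XX K d + Λ d ≤ e → EmpM (K + F) (↑(HX 0 0 0 d) : Set (ℤ × ℤ))) →
  (∀ f, d ≤ f → XX K f - Λ f < s → Λ f + 2 * ((f : ℝ) + 2) ≤ Z) →
  (∃ f, d < f ∧ s ≤ XX K f - Λ f) → Tri3 d K F s e Z

/-- GR10. Proof (compare `S_LeafA` in H200C/Stm3.lean, proved in Pool/Agent/Q299/CH/LeafA.lean). Put
`X = XX K`. If `X d + Λ d ≤ e`: empty, corank `0`. If `s ≤ X d - Λ d`: independent, second case
(`crk_of_Sur`). Otherwise `Λ d + 2 (d + 2) ≤ Z`, so `e < X d + Λ d ≤ X d + Z`. Let `f + 1` be the least number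
`> d` with `s ≤ X (f + 1) - Λ (f + 1)`; then `f ≥ d` and `X f - Λ f < s`; `K + F` is independent on
`HX 0 0 0 (f + 1) ⊇ HX 0 0 0 d`, and the corank is monotone in the set, so
`2 crk ≤ 2 |HX 0 0 0 (f + 1)| - 2 condM (K + F) = X f + 2 (f + 2) - 2 condM F < s + Λ f + 2 (f + 2) - 2 condM F
≤ s - 2 condM F + Z` (`p_card`: `2 |HX 0 0 0 f| = (f + 1) (f + 2)`). -/
def S_LeafG : Prop := LeafG

/-- GR11. From the leaf to the classes. `F` is the leaf, `w` the multiset before the doublings, `G0`, `G1`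
the numbers of conditions less and more, `W` the sum of the multiplicities of the classes. -/
def NumG : Prop := ∀ {d : ℕ} (K F w : Multiset ℕ) (G0 G1 W : ℕ) (s e Z : ℝ),
  TH2.NU.condM F + G0 = TH2.NU.condM w + G1 → 15 * W ≤ 32 * (G0 + G1) → Tri3 d K F s e Z →
  s - 2 * (TH2.NU.condM F : ℝ) + Z ≤ (W : ℝ) / 5 → 2 * (TH2.NU.condM F : ℝ) - e + Z ≤ (W : ℝ) / 5 →
  crkM (HX 0 0 0 d) (K + F) ≤ ((HX 0 0 0 d).card - TH2.NU.condM (K + w)) + G0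

/-- GR11. Proof (compare `S_NumK` in H200P/Stm2.lean, proved in Pool/Agent/Q211/PK/NumK.lean).
`condM (K + F) = condM K + condM F`. First case: trivial. Second case:
`crk + condM K + condM w + G1 ≤ |HX| + G0`. Third case: `2 crk ≤ W / 5`; if `2 G0 ≥ W / 5` done. Otherwise
`2 G1 ≥ (15 / 16) W - W / 5`, and `2 |HX| - 2 condM (K + w) + 2 G0 = (2 |HX| - 2 condM (K + F)) + 2 G1
= XX K d - 2 condM F + 2 G1 > e - Z - 2 condM F + 2 G1 ≥ -W / 5 + (15 / 16) W - W / 5 ≥ W / 5`. -/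
def S_NumG : Prop := NumG

/-- GR12. Four doublings of all classes of all groups. -/
def Acc : Prop := ∀ {S : Finset (ℤ × ℤ)}, (∀ u ∈ S, 0 ≤ u.1 ∧ 0 ≤ u.2) →
  ∀ (J : Finset ℕ) (V : ℕ → Finset ℕ) (N : ℕ → ℕ → ℕ) (c : ℕ) (E : Multiset ℕ),
  (∀ a g0 g1 : ℕ → ℕ → ℕ, (∀ k ∈ J, ∀ v ∈ V k, Leaf 4 (N k v) v (a k v) (g0 k v) (g1 k v)) →
    crkM S (∑ k ∈ J, ∑ v ∈ V k, Multiset.replicate (N k v) (a k v) + E) ≤
      c + ∑ k ∈ J, ∑ v ∈ V k, g0 k v) →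
  crkM S (∑ k ∈ J, ∑ v ∈ V k, Multiset.replicate (256 * N k v) v + E) ≤ c

/-- GR12. Proof. Induction on `J` (generalising `c`, `E`) with `Pool.Agent.Y205.FW.classes_acc`
(Y205/FW/Acc.lean) for one group, `k = 4`, `4 ^ 4 = 256`. -/
def S_Acc : Prop := Acc

/-! ## C. The numbers of one group -/

/-- GR13. The classes of one group. -/
def Color : Prop := ∀ (k : ℕ) (w : Multiset ℕ), Grp k w →
  ∃ (V : Finset ℕ) (N : ℕ → ℕ) (R : List (ℕ × ℕ)), Col k V N R ∧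
    lf V (fun v => 256 * N v) (fun v => v) R = w ∧
    99 / 100 * (w.map fun v : ℕ => (v : ℝ) ^ 2).sum ≤ ∑ v ∈ V, (256 * N v : ℝ) * (v : ℝ) ^ 2

/-- GR13. Proof (compare `S_Corank` in H200W/Stm4.lean, proved in Pool/Agent/Q128/WR/Cor.lean, with
`h = et k = 256 * 2 ^ k`). For `v ∈ w.toFinset` let `n v = w.count v`, `V = {v | 256 et k ≤ n v (v + 1)}`,
`N v = n v / 256`, and let `R` be the list of the `(n v % 256, v)`, `v ∈ V`, and the `(n v, v)`, `v ∉ V`, without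
those with first entry `0`; its length is at most `r = w.toFinset.card`, `V.card ≤ r`, `r ≥ 1`. For `v ∈ V`:
`n v ≥ 256 et k / 2 ^ k = 2 ^ 16`, `n v v ≥ 128 et k`, `255 v ≤ et k`, so
`16 N v v ≥ (n v - 255) v / 16 ≥ 127 et k / 16 ≥ 4 et k`. The rare groups: `255 (v + 1) ≤ et k`, resp.
`n v (v + 1) < 256 et k`. `∑ 256 N v ^ 2 ≥ ∑ w ^ 2 - r 256 et k 2 ^ k - r 255 * 4 ^ k ≥ ∑ w ^ 2 - 2 ^ 17 r 4 ^ k
≥ (1 - 2 ^ (-10)) ∑ w ^ 2`, and `∑ w ^ 2 ≥ 2 ^ 27 * 4 ^ k r`, `257 et k ^ 2 (2 r) = 514 * 2 ^ 16 * 4 ^ k r`. -/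
def S_Color : Prop := Color

/-- GR14. The numbers of one group after the doublings. -/
def ColNum : Prop := ∀ {k : ℕ} {V : Finset ℕ} {N : ℕ → ℕ} {R : List (ℕ × ℕ)}, Col k V N R →
  ∀ a g0 g1 : ℕ → ℕ, (∀ v ∈ V, Leaf 4 (N v) v (a v) (g0 v) (g1 v)) →
  256 ≤ et k ∧
  (∀ v ∈ V, 1 ≤ N v ∧ 16 ≤ a v ∧ 16 * ((a v : ℝ) + 1) ≤ et k ∧ 4 * et k ≤ N v * (a v : ℝ)) ∧
  (∀ x ∈ R, 1 ≤ x.1 ∧ 1 ≤ x.2 ∧ 16 * ((x.2 : ℝ) + 1) ≤ et k ∧ x.1 * ((x.2 : ℝ) + 1) ≤ 256 * et k) ∧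
  257 * et k ^ 2 * ((R.length : ℝ) + V.card) ≤ ∑ v ∈ V, (N v : ℝ) * (a v : ℝ) ^ 2 ∧
  ∑ v ∈ V, (256 * N v : ℝ) * (v : ℝ) ^ 2 ≤ ∑ v ∈ V, (N v : ℝ) * (a v : ℝ) ^ 2 ∧
  1024 * et k ^ 2 ≤ 9 / 10 * ∑ v ∈ V, (N v : ℝ) * (a v : ℝ) ^ 2 ∧
  E0 V N a R ≤ 24 / 125 * (WW V N : ℝ) ∧
  2 * (TH2.NU.condM (lf V N a R) : ℝ) + E0 V N a R ≤ et k * (WW V N : ℝ) / 100 ∧
  102400 * et k ≤ (WW V N : ℝ) ∧
  TH2.NU.condM (lf V N a R) + ∑ v ∈ V, g0 v =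
    TH2.NU.condM (lf V (fun v => 256 * N v) (fun v => v) R) + ∑ v ∈ V, g1 v ∧
  15 * WW V N ≤ 32 * (∑ v ∈ V, g0 v + ∑ v ∈ V, g1 v)

/-- GR14. Proof (compare `S_NumK`, proved in Pool/Agent/Q211/PK/NumK.lean, and
Pool/Agent/Q111/WR/Num.lean). `16 v ≤ a`, `a + 1 ≤ 16 (v + 1) ≤ 16 * 2 ^ k` (`Leaf.lo`, `Leaf.hi`); `V` is not empty
(third part of `Col`, the right hand side is positive), so `k ≥ 1`, `et k ≥ 512`. `N a ^ 2 ≥ 256 N v ^ 2`.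
`1024 et k ^ 2 = 2 ^ 26 * 4 ^ k`. `W = ∑ 256 N v`, `P = ∑ N (a + 1) ≤ ∑ 32 N v = W / 8`;
`2 ^ k W ≥ ∑ 256 N v ^ 2 ≥ 257 et k ^ 2 |R|`, so `et k |R| ≤ W / (257 * 256)` and
`Q = ∑ x.1 (x.2 + 1) ≤ 256 et k |R| ≤ W / 257`; `E0 = 3 / 2 P + Q ≤ (3 / 16 + 1 / 257) W ≤ 24 / 125 W`.
`2 condM (lf) = ∑ N a (a + 1) + ∑ x.1 x.2 (x.2 + 1) ≤ et k / 16 (P + Q)`, so the sum is at most
`et k W ((1 / 8 + 1 / 257) / 16 + 24 / (125 * 512)) ≤ et k W / 100`. `W ≥ ∑ 256 N v ^ 2 / 2 ^ k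
≥ 3 / 2 * 2 ^ 26 * 2 ^ k ≥ 102400 et k`. `Leaf.cd`, `Leaf.gain`. -/
def S_ColNum : Prop := ColNum

/-! ## D. The coranks -/

/-- GR15. Graded multiplicities. -/
def PureC : Prop := ∀ {d : ℕ} (J : Finset ℕ) (w : ℕ → Multiset ℕ), J.Nonempty →
  (∀ k ∈ J, Grp k (w k)) →
  crkM (HX 0 0 0 d) (∑ k ∈ J, w k) ≤ (HX 0 0 0 d).card - TH2.NU.condM (∑ k ∈ J, w k)

/-- GR15. Proof. `Color` gives `V k`, `N k`, `R k` for `k ∈ J` (`choose`). `Acc` with `S = HX 0 0 0 d`,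
`c = |HX| - condM (∑ w k)` and `E` the sum of the multisets of the `R k`. Given the leaves `a`, `g0`, `g1`, let
`F k = lf (V k) (N k) (a k) (R k)`, `F = ∑ F k`, `W = ∑ WW (V k) (N k)`. `ColNum` for every `k`; `UnitsR` with
`h = et k` gives lists `L k` with `tM (L k) = F k`, `tS (L k) ≤ 2 condM (F k) + E0 k`, `tE (L k) ≥ 2 condM (F k) - E0 k`,
`tE (L k) ≥ 1024 et k ^ 2`. `Slab`. Let `s = ∑ tS (L k)`, `e = ∑ tE (L k) ≥ 1`. `LeafG` with `K = 0`, `Λ = 0`,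
`Z = W / 500`: `XX 0 f = (f + 1) (f + 2)` (`p_card`, `condM 0 = 0`); `TrW`: `s ≤ (f + 1) (f + 2)` implies
`s + 3 / 4 (f + 3) ≤ (f + 3) ^ 2`, and `(d + 1) (d + 2) ≤ e` implies `d ^ 2 ≤ e`. If `(f + 1) (f + 2) < s`, then, since
`s ≤ ∑ et k W k / 100 ≤ ∑ (W k) ^ 2 / 10240000 ≤ W ^ 2 / 3200 ^ 2`, `f + 1 ≤ W / 3200` and
`2 (f + 2) ≤ W / 1600 + 2 ≤ W / 500` (`W ≥ 102400 * 512`). `NumG` with `K = 0`, `w = ∑ w k`,
`G0 = ∑ ∑ g0`, `G1 = ∑ ∑ g1`: `s - 2 condM F + Z ≤ ∑ E0 k + Z ≤ (24 / 125 + 1 / 500) W ≤ W / 5`, and the same for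
`2 condM F - e + Z`. -/
def S_PureC : Prop :=
  Slab → TrW → UnitsR → LeafG → NumG → Acc → Color → ColNum → PureC

/-- GR16. Graded multiplicities together with `K`. -/
def KC : Prop := ∀ {d : ℕ} {h : ℝ} (K : Multiset ℕ) (J : Finset ℕ) (w : ℕ → Multiset ℕ), 1 ≤ h →
  J.Nonempty → (∀ k ∈ J, Grp k (w k)) → WinAb h K d → (∀ k ∈ J, 64 * et k ≤ h) →
  4 * h ^ 2 ≤ ∑ k ∈ J, ((w k).map fun v : ℕ => (v : ℝ) ^ 2).sum →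
  crkM (HX 0 0 0 d) (K + ∑ k ∈ J, w k) ≤ (HX 0 0 0 d).card - TH2.NU.condM (K + ∑ k ∈ J, w k)

/-- GR16. Proof. As GR15, with `E` also containing `K`. `∑ tE (L k) ≥ 9 / 10 ∑ ∑ N a ^ 2 ≥
9 / 10 * 99 / 100 * ∑ w ^ 2 ≥ 2 h ^ 2`, so `Regroup` gives a list `L'` of items of height `h` (`Iw h`) with
`tM L' = F`; `s = tS L' ≤ ∑ tS (L k) + 3 / 4 (∑ tE (L k)) / h`, `e = tE L' = ∑ tE (L k)`. `LeafG` with the `Λ` of
`WinAb` (take `Λ f = 0` for `f < d`): `GoodSK`, `GoodEK` applied to the lists of the `(x.1, x.2.1)`, resp.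
`(x.1, x.2.2)`. If `X f - Λ f < s`, then `Λ f ≤ X f / (64 h) ≤ X f / 2`, so `X f ≤ 2 s` and
`Λ f + 2 (f + 2) ≤ X f / (64 h) ≤ s / (32 h) = Z`. Existence of `f`:
`X f - Λ f ≥ X f / 2 ≥ 64 h (f + 2)`. `NumG`: `∑ tS (L k) ≤ ∑ et k W k / 100 ≤ h W / 6400` and
`tE (L k) ≤ tS (L k)`, so `s - 2 condM F ≤ ∑ E0 k + 3 / 4 * W / 6400`, `Z ≤ (h W / 6400 + W) / (32 h) ≤ W / 1000`
(`h ≥ 64 * 512`), and `s - 2 condM F + Z ≤ W / 5`, `2 condM F - e + Z ≤ W / 5`. -/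
def S_KC : Prop :=
  Regroup → UnitsR → LeafG → NumG → Acc → Color → ColNum → KC

/-- GR17. The same without the condition on the volume. -/
def KC2 : Prop := ∀ {d : ℕ} {h : ℝ} (K : Multiset ℕ) (J : Finset ℕ) (w : ℕ → Multiset ℕ), 1 ≤ h →
  (∀ k ∈ J, Grp k (w k)) → WinAb h K d → (∀ k ∈ J, 64 * et k ≤ h) →
  crkM (HX 0 0 0 d) (K + ∑ k ∈ J, w k) ≤ (HX 0 0 0 d).card - TH2.NU.condM (K + ∑ k ∈ J, w k)

/-- GR17. Proof (compare `S_CorankK2` in H200P/Stm2.lean, proved in Pool/Agent/Q211/PK/Cor2K.lean). If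
`J = ∅`: `SurM K` by the first part of `GoodSK` for `f = d`, and `crk_of_Sur`. If
`4 h ^ 2 ≤ ∑ w ^ 2` this is GR16. Otherwise take `k ∈ J` and `v ∈ w k`, and add the least number `n` of points of
multiplicity `v` to `w k` such that the new sum `∑ w' ^ 2` is at least `4 h ^ 2`; it is at most
`4 h ^ 2 + v ^ 2 ≤ 5 h ^ 2`, and `Grp k (w' k)` since the set of values is the same. By GR16
`crkM (K + ∑ w') ≤ |HX| - condM (K + ∑ w')`. `condM (∑ w') ≤ ∑ w' ^ 2 ≤ 5 h ^ 2`, and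
`XX K d ≥ 64 h * 2 (d + 2)` by `WinAb`, `XX K d ≤ (d + 1) (d + 2)`, so `d + 1 ≥ 128 h` and
`XX K d ≥ 128 h * 128 h ≥ 10 h ^ 2`: `condM (K + ∑ w') ≤ |HX|`. As in Cor2K.lean this gives
`SurM (K + ∑ w')`, hence `SurM (K + ∑ w)`, hence the claim. -/
def S_KC2 : Prop := KC → KC2

/-! ## E. Windows -/

/-- GR18. Three points go to the corners. -/
def Corner3 : Prop := ∀ {M1 M2 M3 f : ℕ} (W : Multiset ℕ), M3 ≤ M2 → M2 ≤ M1 → M1 + M2 + M3 ≤ f →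
  (SurM W (↑(HX M1 M2 M3 f) : Set (ℤ × ℤ)) →
    SurM ({M1, M2, M3} + W) (↑(HX 0 0 0 f) : Set (ℤ × ℤ))) ∧
  (EmpM W (↑(HX M1 M2 M3 f) : Set (ℤ × ℤ)) →
    EmpM ({M1, M2, M3} + W) (↑(HX 0 0 0 f) : Set (ℤ × ℤ)))

/-- GR18. Proof. `Block` (CH8, H200C/Stm.lean, proved in `Pool.Agent.Q187.CHC.block`) and `Tor` (CH7,
`Pool.Agent.Q68.CH.tor`; see the list of imports of Pool/Agent/H200C/All.lean) with `W = 0` there: for a finite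
set `S` of pairs of nonnegative integers `EmpM M {p | p ∈ S ∧ v ≤ p.1 + p.2}` implies `EB 0 M`, then
`EB {v} M (qd S)`, so `EC 0 {v} M (qd S)` (the curve `z = 0`, `p = 0`) and `EmpM ({v} + M) S`; the same for
`SurM` if `S` contains all `p` with `0 ≤ p.1`, `0 ≤ p.2`, `p.1 + p.2 < v`. Now `HX M1 M2 M3 f` is the part
`M3 ≤ x + y` of `HX M1 M2 0 f`; this gives `{M3} + W` on `HX M1 M2 0 f`. The map `(x, y) ↦ (f - x - y, y)`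
(`Sur.comap`, `Emp.comap` as in `S_DiagS`) carries it to `HX M1 0 M2 f`, the part `M2 ≤ x + y` of `HX M1 0 0 f`; this
gives `{M2} + ({M3} + W)`. The map `(x, y) ↦ (x, f - x - y)` carries `HX M1 0 0 f` to `HX 0 0 M1 f`. -/
def S_Corner3 : Prop := Corner3

/-- GR19. The windows for three arbitrary multiplicities. -/
def Win3 : Prop := ∀ {h : ℝ} {d M1 M2 M3 : ℕ}, 1 ≤ h → M3 ≤ M2 → M2 ≤ M1 → M1 + M2 + M3 ≤ d →
  4160 * h ≤ (d : ℝ) - M1 → WinAb h {M1, M2, M3} d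

/-- GR19. Proof. For `f ≥ d` `p_win` and `Corner3` with `Λ = 14 (f - M1 + 2)`; `XX {M1, M2, M3} f = 2 |HX M1 M2 M3 f|`
(`p_card`). `XX ≥ f ^ 2 - ∑ M ^ 2 ≥ f (f - M1) ≥ 4160 h f`, as `M2 ^ 2 + M3 ^ 2 ≤ M1 (M2 + M3) ≤ M1 (f - M1)`, so
`XX / (64 h) ≥ 65 f ≥ 16 (f + 2) ≥ Λ + 2 (f + 2)`. -/
def S_Win3 : Prop := Corner3 → Win3

/-- GR20. The windows for packed multiplicities. -/
def WinP : Prop := ∀ {h G η : ℝ} {d m1 : ℕ} (K : Multiset ℕ), 1 ≤ h → 0 < η → η ≤ 1 →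
  32 * h ≤ η * G → 1 ≤ d → (∀ m ∈ K, m ≤ m1) →
  (K.map fun m : ℕ => ((m : ℝ) + 16 * G) ^ 2).sum + (7 * m1 + 116 * G) * d ≤ (d : ℝ) ^ 2 →
  (K.map fun m : ℕ => (m : ℝ) * (m + 1)).sum ≤ (1 - η) * (d : ℝ) ^ 2 → WinAb h K d

/-- GR20. Proof. `p_winK` (H200P/All.lean) with `Λ f = 7 f ^ 2 / (16 G)`; `XX K f ≥ η f ^ 2`
(`p_card`; `f ≥ d`), `Λ f ≤ 7 η f ^ 2 / (512 h)`, `2 (f + 2) ≤ η f ^ 2 / (512 h)` since
`f ≥ d ≥ 116 G ≥ 3712 h / η`, and `8 / 512 = 1 / 64`. -/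
def S_WinP : Prop := WinP

end Pool.Agent.H200G
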