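import Pool.Agent.H200G.Stm2
import Pool.Agent.H200W.Stm5

/-! # Project GR: statements of the lemmas, with their proofs. Part 3: general points, nef classes. -/

set_option autoImplicit false

namespace Pool.Agent.H200G

open Finset Pool.Agent.TH176.Nag Pool.Agent.TH603.Sur Pool.Agent.TH2.NU Pool.Agent.TH641.UM
open Pool.Agent.Y205.FW Pool.Agent.Y205.MD Pool.Agent.H200W Pool.Agent.H200P Pool.Agent.H200C
open Pool.Agent.H932R3 Pool.Agent.W609.CR

/-- GR21. From the corank to general points. -/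
def RankG : Prop := ∀ {n d : ℕ} {w : Fin n → ℕ} (M : Multiset ℕ),
  (M.filter fun v => v ≠ 0) = ((univ : Finset (Fin n)).val.map w).filter (fun v => v ≠ 0) →
  crkM (HX 0 0 0 d) M ≤ (HX 0 0 0 d).card - TH2.NU.condM M → GenExp d w

/-- GR21. Proof (compare `S_ExpK` in H200P/Stm3.lean, proved in Pool/Agent/Q195/PK/ExpK.lean, and
Pool/Agent/Q251/CH/ExpA.lean). If `condM M ≤ |HX|` one has `SurM M (HX 0 0 0 d)` (the set `T` of `crk_spec`; see
Pool/Agent/Q53/WR/Cor2.lean), hence `Sur w (TZ d)` for the whole family `w` (zeros are no conditions;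
`HX 0 0 0 d` is `TZ d`), and `Pool.Agent.TH603.Sur.indep_open` gives a polynomial `F ≠ 0` over `ℚ` such that
`ExpDim` holds if `F (P) ≠ 0`; this is the case for algebraically independent `P`. Otherwise
`EmpM M (HX 0 0 0 d)`, so `Emp w (TZ d)`, and `full_open`. -/
def S_RankG : Prop := RankG

/-- GR22. Graded multiplicities have the expected dimension in all degrees. -/
def ExpPure : Prop := ∀ {n d κ : ℕ} {w : Fin n → ℕ}, Gr w univ κ → GenExp d w

/-- GR22. Proof. Let `c` be as in `Gr`, `J` the image of `c` on `{i | w i ≠ 0}`, and for `k ∈ J` let `w k` be the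
multiset of the `w i` with `c i = k`, `w i ≠ 0`. `Grp k (w k)` (`card_toFinset`-type lemma for the image; the
terms with `w i = 0` do not contribute to the sum of squares). If `J = ∅` then all `w i = 0`, and GR21 with
`M = 0` (`SurM 0`, `crk_of_Sur`, or `PureC` is not needed). Otherwise `PureC` and GR21. -/
def S_ExpPure : Prop := PureC → RankG → ExpPure

/-- GR23. Graded multiplicities together with arbitrary ones. -/
def ExpAb : Prop := ∀ {n d κ : ℕ} {w : Fin n → ℕ} {A : Finset (Fin n)},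
  WinAb (2 ^ 14 * 2 ^ κ) (A.val.map w) d → Gr w (univ \ A) κ → GenExp d w

/-- GR23. Proof. As GR22, with `K = A.val.map w` and `KC2`, `h = 2 ^ 14 * 2 ^ κ`, `64 et k = 2 ^ 14 * 2 ^ k ≤ h` for
`k ≤ κ`; GR21 with `M = K + ∑ w k`. -/
def S_ExpAb : Prop := KC2 → RankG → ExpAb

/-- The multiplicities `w i`, `i ∈ S`, are divided into groups (the values of `c`), such that in every group
the sum of the squares is at least `2 ^ 29` times the number of the nonzero values times the square of any of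
them. There is no condition on the number and the sizes of the groups. -/
def Un {n : ℕ} (w : Fin n → ℕ) (S : Finset (Fin n)) : Prop :=
  ∃ c : Fin n → ℕ, ∀ i ∈ S, 2 ^ 29 * w i ^ 2 * ((S.filter fun j => c j = c i ∧ w j ≠ 0).image w).card ≤
    ∑ j ∈ S.filter (fun j => c j = c i), w j ^ 2

/-- GR24. Unions are graded. -/
def UnGr : Prop := ∀ {n κ : ℕ} {w : Fin n → ℕ} {S : Finset (Fin n)}, Un w S →
  (∀ i ∈ S, w i < 2 ^ κ) → Gr w S κ

/-- GR24. Proof. For `i ∈ S` let `μ i` be the maximum of the `w j`, `j ∈ S`, `c j = c i` (`Finset.sup`), and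
`c' i = Nat.size (μ i)` (`0` for `i ∉ S`): `w i ≤ μ i < 2 ^ c' i`, `c' i ≤ κ` (`Nat.size_le`), and
`4 ^ c' i ≤ 4 (μ i) ^ 2` if `μ i ≥ 1` (`Nat.lt_size`). For fixed `k` the set `{i ∈ S | c' i = k}` is a union of
groups; for every group with `μ ≥ 1`, `Nat.size μ = k`, and `r` nonzero values,
`2 ^ 27 * 4 ^ k r ≤ 2 ^ 29 μ ^ 2 r ≤ ∑ w ^ 2` over the group, and the number of values of the union is at most
the sum of the `r` (`Finset.card_biUnion_le`, sum over the image of `c`). -/
def S_UnGr : Prop := UnGr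

/-- GR25. Repeated multiplicities. -/
def RepUn : Prop := ∀ {n : ℕ} {w : Fin n → ℕ} {S : Finset (Fin n)},
  (∀ i ∈ S, w i ≠ 0 → 2 ^ 29 ≤ (S.filter fun j => w j = w i).card) → Un w S

/-- GR25. Proof. `c = w`. -/
def S_RepUn : Prop := RepUn

/-- GR26. Nef classes. -/
def NefU : Prop := ∀ {n : ℕ} {P : Fin n → Fin 2 → ℂ},
  AlgebraicIndependent ℚ (fun ij : Fin n × Fin 2 => P ij.1 ij.2) →
  ∀ (a : ℝ) (x : Fin n → ℝ) (c : Fin n → ℕ), 0 ≤ a → (∀ i, 0 ≤ x i) →
  (∀ i, 2 ^ 30 * x i ^ 2 * (((univ.filter fun j => c j = c i ∧ x j ≠ 0).image x).card : ℝ) ≤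
    ∑ j ∈ univ.filter (fun j => c j = c i), x j ^ 2) → ∑ i, x i ^ 2 ≤ a ^ 2 →
  ∀ (G : MvPolynomial (Fin 3) ℂ) (e : ℕ) (u : Fin n → ℕ), G ≠ 0 → G.IsHomogeneous e →
    (∀ i, Van (aff (P i)) (u i) G) → ∑ i, x i * (u i : ℝ) ≤ a * e

/-- GR26. Proof (compare PK18, S_NefK in H200P/Stm3.lean, proved in Pool/Agent/Q195/PK/NefK.lean, and
`S_NefWide` in H200W/Stm5.lean). For a natural number `N` put `v i = ⌊N x i⌋₊`, `d = ⌈N a⌉₊`. For all large `N` the
family `v` satisfies `Un v univ` with the same `c`: if `x i = 0` then `v i = 0` and the condition is trivial;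
otherwise the group of `i` has `r ≥ 1` values, equal `x` have equal `v`, `x = 0` implies `v = 0`, so the number of
the nonzero values of `v` is at most `r`; `∑ v j ^ 2 ≥ N ^ 2 ∑ x j ^ 2 - 2 N ∑ x j` over the group, and
`2 ^ 29 v i ^ 2 r ≤ 2 ^ 29 N ^ 2 x i ^ 2 r ≤ N ^ 2 ∑ x j ^ 2 / 2`, where `∑ x j ^ 2 > 0`. `Un` is invariant
under multiplication by `k ≥ 1` (for `k = 0` all multiplicities are `0`, and `Un` is trivial), so
`GenExp (k d) (k v)` for all `k` by GR24 (any large `κ`) and `ExpPure`.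
`∑ v i ^ 2 ≤ N ^ 2 ∑ x i ^ 2 ≤ (N a) ^ 2 ≤ d ^ 2`. `S_NefExp` gives `∑ v i u i ≤ d e`; divide by `N → ∞`. -/
def S_NefU : Prop := ExpPure → UnGr → S_NefExp → NefU

end Pool.Agent.H200G
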