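import Pool.Agent.H200G.Stm3

/-! # Project GR: statements of the lemmas, with their proofs. Part 4: combinations. -/

set_option autoImplicit false

namespace Pool.Agent.H200G

open Finset Pool.Agent.TH176.Nag Pool.Agent.TH603.Sur Pool.Agent.TH2.NU Pool.Agent.TH641.UM
open Pool.Agent.Y205.FW Pool.Agent.Y205.MD Pool.Agent.H200W Pool.Agent.H200P Pool.Agent.H200C
open Pool.Agent.H932R3 Pool.Agent.W609.CR

/-- Three arbitrary multiplicities; the others are at most `μ` and divided into groups as in `Un`. -/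
def WideG {n : ℕ} (d : ℕ) (w : Fin n → ℕ) : Prop :=
  ∃ (p : Fin 3 → Fin n) (μ : ℕ), Function.Injective p ∧ w (p 2) ≤ w (p 1) ∧ w (p 1) ≤ w (p 0) ∧
    (∀ i, (∀ j, p j ≠ i) → w i ≤ μ) ∧ Un w (univ \ univ.image p) ∧
    w (p 0) + w (p 1) + w (p 2) ≤ d ∧ w (p 0) + 2 ^ 28 * (μ + 1) ≤ d

/-- A point `p` and a set `A` of points of arbitrary multiplicities on a chain of curves of degrees
`E 0 ≥ E 1 ≥ ...`; the others are at most `μ` and divided into groups as in `Un`. -/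
def ChainG {n : ℕ} (d : ℕ) (w : Fin n → ℕ) : Prop :=
  ∃ (p : Fin n) (A : Finset (Fin n)) (E : ℕ → ℕ) (m μ : ℕ), p ∉ A ∧ Antitone E ∧
    (∀ k, 1 ≤ E k) ∧ (∀ i ∈ A, w i ≤ m) ∧ (∀ i, i ≠ p → i ∉ A → w i ≤ μ) ∧
    Un w (univ \ insert p A) ∧
    w p + ∑ j ∈ range m, E j + 2 ^ 34 * (μ + 1) * E 0 ≤ d ∧
    (∀ k < m, (k = 0 ∨ E k < E (k - 1)) → ∑ i ∈ A, (w i - k) + E k * ∑ j ∈ range k, E j +
      2 ^ 38 * (μ + 1) * E k *
        (E 0 + E k * (A.filter fun i => k < w i ∧ w i ≤ k + 2 ^ 33 * (μ + 1)).card) ≤ E k * d)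

/-- Arbitrary multiplicities at most `m1` at a set `A` of points, which can be packed with a margin; the
others are at most `μ` and divided into groups as in `Un`. -/
def PackG {n : ℕ} (d : ℕ) (w : Fin n → ℕ) : Prop :=
  ∃ (A : Finset (Fin n)) (η : ℝ) (m1 μ : ℕ), 0 < η ∧ η ≤ 1 ∧ 1 ≤ d ∧
    (∀ i ∈ A, w i ≤ m1) ∧ (∀ i ∉ A, w i ≤ μ) ∧ Un w (univ \ A) ∧
    ∑ i ∈ A, ((w i : ℝ) + 2 ^ 24 * (μ + 1) / η) ^ 2 + (7 * m1 + 2 ^ 27 * (μ + 1) / η) * d ≤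
      (d : ℝ) ^ 2 ∧
    ∑ i ∈ A, (w i : ℝ) * (w i + 1) ≤ (1 - η) * (d : ℝ) ^ 2

/-- GR27. Packing with repeated small multiplicities. -/
def MainR : Prop := ∀ ε : ℝ, 0 < ε → ∃ c : ℝ, 0 < c ∧ ∀ {n d : ℕ} {μ : ℝ} (w : Fin n → ℕ),
  (∀ i, (w i : ℝ) ≤ c * d) →
  (∀ i, w i ≠ 0 → (w i : ℝ) ≤ μ → 2 ^ 29 ≤ (univ.filter fun j => w j = w i).card) →
  (∑ i ∈ univ.filter (fun i => c * μ < (w i : ℝ)), (w i : ℝ) ^ 2 ≤ (1 - ε) * (d : ℝ) ^ 2 ∨
    ε * (d : ℝ) ^ 2 ≤ ∑ i ∈ univ.filter (fun i => (w i : ℝ) ≤ c * μ), (w i : ℝ) ^ 2) →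
  GenExp d w

/-- GR27. Proof (compare PK16 and PK17 in H200P/Stm3.lean, proved in Pool/Agent/Q195/PK/Scale.lean and
MainC.lean). We may assume `ε ≤ 1` and that some `w i ≥ 1`, so `d ≥ 1 / c`.
First alternative (constant `c'`, which we may take as small as we like): as PK16 with `η = ε / 2`,
`C = 2 ^ 26 / ε`, `K0 ≥ 8 C / ε`, `J ≥ 8 (1 + C) ^ 2 / ε`, `B = K0 ^ J`, `ν0 = max 1 ⌈c' μ⌉₊` (`1` if `μ < 0`),
`ν j = K0 ^ j ν0`, and a band `j` with `∑_{B j} w ^ 2 ≤ d ^ 2 / J`, `ν = ν j`, `m1 = ⌊c' d⌋₊`. If `1 < c' μ` then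
`ν ≤ 2 c' μ B ≤ μ`; `PackG` with `A = {i | ν < w i}` and `μ := ν`: `Un` for `{w ≤ ν}` by `RepUn` (all values
`≤ ν ≤ μ` are repeated), the rest as in PK16, where `ν ≤ √c' B d`: if `c' d ≤ μ`, all values are repeated and
`RepUn`, `UnGr`, `ExpPure` give the claim, so we may assume `μ < c' d`, and then `ν ≤ 2 c' ^ 2 B d`.
If `c' μ ≤ 1` then `ν0 = 1`, `ν ≤ B`. If `∑_{w ≤ ν} w ^ 2 ≥ 2 ^ 29 B ^ 3` the same with `Un` by one single group
(`c = 0`; the nonzero values are at most `ν ≤ B`, so there are at most `B` of them). Otherwise at most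
`2 ^ 29 B ^ 3` points have `1 ≤ w ≤ ν`; `PackG` with `A = {i | w i ≠ 0}`, `μ := ν` (`Un` for the zeros is trivial):
these points contribute at most `2 ^ 29 B ^ 3 (1 + C) ^ 2 B ^ 2 ≤ (ε / 16) d ^ 2` to the first sum, as `d ≥ 1 / c'`.
Second alternative. Let `c' ≤ min (ε / 20) (1 / 2)` be the constant of the first alternative for `ε / 4`, and
`c = c' ^ 2`. If `μ < 0` the sum is `0`, so `d = 0`. Put `μ' = c' μ ≤ μ`, so `c μ = c' μ'`, and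
`T = ∑_{w ≤ μ'} w ^ 2`. If `T ≥ (1 + ε / 2) d ^ 2`: let `w'` be `w` with the values `> μ'` replaced by `0`; all values
of `w'` are repeated, so `GenExp d w'` by `RepUn`, `UnGr`, `ExpPure`; twice the number of its conditions is at
least `(1 + ε / 2) d ^ 2 ≥ (d + 1) (d + 2)` (`d ≥ 1 / c ≥ 20 / ε`), so the system of `w'` is `0`, and that of `w`
is contained in it. Otherwise `∑_{c' μ' < w ≤ μ'} w ^ 2 ≤ T - ε d ^ 2 ≤ (1 - ε / 2) d ^ 2`. If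
`∑_{c' μ' < w} w ^ 2 ≤ (1 - ε / 4) d ^ 2` the first alternative applies with `μ'`. Otherwise remove points with
`w > μ'` one by one until the sum `S'` over the remaining ones with `w > c' μ'` is at most `(1 - ε / 4) d ^ 2`; then
`S' > (1 - ε / 4 - c ^ 2) d ^ 2`. The first alternative applies to the new `w'` with `μ'` (the values `≤ μ'` are
unchanged), and twice the number of conditions of `w'` is at least
`∑ w' ^ 2 ≥ (1 - ε / 4 - c ^ 2 + ε) d ^ 2 ≥ (1 + ε / 2) d ^ 2 ≥ (d + 1) (d + 2)`: the system of `w'` is `0`, and the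
claim follows as in PK17. -/
def S_MainR : Prop := RepUn → UnGr → ExpPure →
  (∀ {n d : ℕ} {w : Fin n → ℕ}, PackG d w → GenExp d w) → MainR

/-- GR28. Nef classes, with arbitrary large coefficients. -/
def NefR : Prop := ∀ ε : ℝ, 0 < ε → ∃ γ : ℝ, 0 < γ ∧ ∀ {n : ℕ}
  {P : Fin n → Fin 2 → ℂ}, AlgebraicIndependent ℚ (fun ij : Fin n × Fin 2 => P ij.1 ij.2) →
  ∀ (c M : ℝ) (x : Fin n → ℝ), 0 < c → (∀ i, 0 ≤ x i) → (∀ i, x i ≤ γ * c) →
  (∀ i, x i ≠ 0 → x i ≤ M → 2 ^ 29 ≤ (univ.filter fun j => x j = x i).card) →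
  ε * c ^ 2 ≤ ∑ i ∈ univ.filter (fun i => x i ≤ γ * M), x i ^ 2 → ∑ i, x i ^ 2 ≤ c ^ 2 →
  ∀ (G : MvPolynomial (Fin 3) ℂ) (e : ℕ) (u : Fin n → ℕ), G ≠ 0 → G.IsHomogeneous e →
    (∀ i, Van (Pool.Agent.W609.CR.aff (P i)) (u i) G) → ∑ i, x i * (u i : ℝ) ≤ c * e

/-- GR28. Proof: as PK18 (S_NefK in H200P/Stm3.lean, proved in Pool/Agent/Q195/PK/NefK.lean) with `MainR`
instead of `MainC` (second alternative, `ε / 2`, and for `γ` half of its constant). `v i = ⌊N x i⌋₊`,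
`d = ⌈N c⌉₊`, `μ = k N M`: `0 < k v i ≤ k N M` implies `x i ≤ M` for large `N` (finitely many `i`), so `x i ≠ 0` is
repeated, hence `v i` is. -/
def S_NefR : Prop := MainR → S_NefExp → NefR

end Pool.Agent.H200G
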