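import Pool.Agent.H200G.Stm4

/-! # Project GR: statements of the lemmas, with their proofs. Part 5: heredity of independence. -/

set_option autoImplicit false

namespace Pool.Agent.H200G

open Finset Pool.Agent.H200W Pool.Agent.H200P Pool.Agent.H932R3 Pool.Agent.W609.CR

/-- GR29. Independence is inherited by larger degrees, smaller multiplicities and fewer points. -/
def Hered : Prop := ∀ {n r d e : ℕ} {w : Fin n → ℕ} {v : Fin r → ℕ} (f : Fin n ↪ Fin r), e ≤ d →
  (∀ i, w i ≤ v (f i)) → ∑ i, (v i + 1).choose 2 ≤ (e + 2).choose 2 →
  GenExp e v → GenExp d w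

/-- GR29. Proof.
Step 0 (the points). Let `P : Fin n → Fin 2 → K` be algebraically independent over `ℚ`, and let `F ≠ 0` be the
polynomial over `ℚ` of `Pool.Agent.TH442.NF.to_open` for `(e; v)`. There is a rational configuration `q` with
`F (q) ≠ 0` (`MvPolynomial.funext`). Let `Q (f i) = P i` and `Q j = q j` (constants in `ℚ ⊆ K`) for `j` not in
the range of `f`. `F (Q) ≠ 0`: it is the value at `P` of the polynomial over `ℚ` which arises from `F` by
substituting `q j` for the coordinates of the points `j` not in the range of `f`, and this one is not zero, as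
its value at `(q (f i))` is `F (q)`. So `ExpDim K v Q e`, i.e. (with `VS` and `aff` as in
`Pool.Agent.TH442.NF.expDim_iff`) `finrank VS (aff Q) v e = (e + 2).choose 2 - ∑ (v j + 1).choose 2` exactly (the
difference is `≥ 0`).
Step 1 (multiplicities). If `w' j ≤ v j` for all `j` then
`finrank VS (aff Q) w' e ≤ finrank VS (aff Q) v e + ∑ (v j + 1).choose 2 - ∑ (w' j + 1).choose 2`:
by induction on `∑ (v j - w' j)` it is enough to raise one multiplicity `m` to `m + 1`, which are `m + 1` linear
conditions (the coefficients of the terms of order `m` of the Taylor expansion at the point); compare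
`crk_drop`, `crk_cond` in Pool/Agent/Y205/MD/Sub.lean and `chi_le_dim` in Pool/Agent/TH167/SH/Final.lean. Apply
this with `w' (f i) = w i`, `w' j = 0` otherwise; `VS (aff Q) w' e = VS (aff P) w e` and the sums agree. Hence
`finrank VS (aff P) w e ≤ (e + 2).choose 2 - ∑ (w i + 1).choose 2`.
Step 2 (degrees). `finrank VS (aff P) w (e + 1) ≤ finrank VS (aff P) w e + (e + 2)`: take a linear form `l`
without zeros among the points; the forms of `VS (aff P) w (e + 1)` divisible by `l` are `l` times
`VS (aff P) w e` (`van_of_mul`-type lemma: `l` is a unit at the points), and the restriction to `l = 0` (after a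
linear change of coordinates `X 2 = 0`, the line at infinity, which contains none of the points
`(P i 0 : P i 1 : 1)`: simply put `X 2 = 0`) has values in the binary forms of degree `e + 1`, a space of
dimension `e + 2`. So `finrank VS (aff P) w d ≤ (d + 2).choose 2 - ∑ (w i + 1).choose 2` for all `d ≥ e`.
Step 3. The reverse inequality is `Pool.Agent.TH167.SH.chi_le_dim`.
Second route. Let `crk`, `GS` be as in Pool/Agent/Y205/MD/Gen.lean (the generic configuration `gp`); show
`crk (HX 0 0 0 e) v ≤ |HX 0 0 0 e| - cond v` from `ExpDim (GK ..) v (gp) e` by dehomogenization (`finrank_GS`), so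
`Sur v (TZ e)` (`crk_spec`), and use `Sur_le` (Y205/MD/Sub.lean), `Sur_drop`, `TZ_mono` (TH745/MN/Dbl.lean) and
`Pool.Agent.TH603.Sur.indep_open`. -/
def S_Hered : Prop := Hered

end Pool.Agent.H200G
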